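import Pool.Agent.Run7.h686.SS.Rel

/-!
# Thin fans: `(k,-1), (1,0), (k,1)`
-/

set_option autoImplicit false

namespace Pool.Agent.Run7.h686.SS

open Matrix Pool.Agent.TH441.SSE2

/-- The presentation on the fan `(k,-1), (1,0), (k,1)`. -/
def E (lam mu X k K : ℤ) : Matrix (Fin 3) (Fin 3) ℤ :=
  !![k * (X + K), k * (lam - k * (X + 2 * K)) + k * mu, k * K - mu;
     X + K, lam - k * (X + 2 * K), K;
     k * (X + K), k * (lam - k * (X + 2 * K)) - k * mu, k * K + mu]

/-- Good parameters. -/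
def EG (lam mu X k K : ℤ) : Prop :=
  1 ≤ k ∧ |mu| ≤ k * K ∧ 0 ≤ K ∧ k * (X + 2 * K) + |mu| ≤ lam

lemma E_one (lam mu X K : ℤ) : E lam mu X 1 K = C lam mu X K := by
  ext i j; fin_cases i <;> fin_cases j <;> simp [E, C] <;> ring

lemma E_par' {lam mu X k K K' : ℤ} (hX : 0 ≤ X) (h : EG lam mu X k K) (h' : EG lam mu X k K')
    (hK : K' ≤ K) : Q (E lam mu X k K) (E lam mu X k K') := by
  obtain ⟨h0, h1, h2, h3⟩ := h
  obtain ⟨-, h1', h2', h3'⟩ := h'
  have e1 := le_abs_self mu
  have e2 := neg_le_abs mu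
  have g1 : 0 ≤ k * (X + K') := mul_nonneg (by linarith) (by linarith)
  have g2 : 0 ≤ k * (K - K') := mul_nonneg (by linarith) (by linarith)
  have g3 : 0 ≤ k * (lam - k * (X + 2 * K) + mu) := mul_nonneg (by linarith) (by linarith)
  have g4 : 0 ≤ k * (lam - k * (X + 2 * K) - mu) := mul_nonneg (by linarith) (by linarith)
  have g5 := abs_nonneg mu
  refine two_step
    (!![k * (X + K'), k * (lam - k * (X + 2 * K)) + k * mu, k * K' - mu, k * (K - K');
        X + K', lam - k * (X + 2 * K), K', K - K';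
        k * (X + K'), k * (lam - k * (X + 2 * K)) - k * mu, k * K' + mu, k * (K - K')] :
        Matrix (Fin 3) (Fin 4) ℤ)
    (!![1, 0, 0; 0, 1, 0; 0, 0, 1; 1, 0, 1] : Matrix (Fin 4) (Fin 3) ℤ)
    (!![k * (X + K'), k * (lam - k * (X + 2 * K)) + k * mu, k * K' - mu, k * (K - K');
        X + K', lam - k * (X + 2 * K), K', K - K';
        k * (X + K'), k * (lam - k * (X + 2 * K)) - k * mu, k * K' + mu, k * (K - K')] :
        Matrix (Fin 3) (Fin 4) ℤ)
    (!![1, 0, 0; 0, 1, 0; 0, 0, 1; 0, 2 * k, 0] : Matrix (Fin 4) (Fin 3) ℤ) ?_ ?_ ?_ ?_ ?_ ?_ ?_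
  · intro i j; fin_cases i <;> fin_cases j <;> simp <;> linarith
  · intro i j; fin_cases i <;> fin_cases j <;> simp
  · intro i j; fin_cases i <;> fin_cases j <;> simp <;> linarith
  · intro i j; fin_cases i <;> fin_cases j <;> simp <;> linarith
  · ext i j; fin_cases i <;> fin_cases j <;> simp [Matrix.mul_apply, Fin.sum_univ_succ] <;> ring
  · ext i j; fin_cases i <;> fin_cases j <;> simp [E, Matrix.mul_apply, Fin.sum_univ_succ] <;> ring
  · ext i j; fin_cases i <;> fin_cases j <;> simp [E, Matrix.mul_apply, Fin.sum_univ_succ] <;> ring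

lemma E_par {lam mu X k K K' : ℤ} (hX : 0 ≤ X) (h : EG lam mu X k K) (h' : EG lam mu X k K') :
    Q (E lam mu X k K) (E lam mu X k K') := by
  rcases le_total K' K with hK | hK
  · exact E_par' hX h h' hK
  · exact (E_par' hX h' h hK).symm

lemma E_step {lam mu X k k' K : ℤ} (hX : 0 ≤ X) (hk' : 1 ≤ k') (hkk : k' ≤ k) (hK : 0 ≤ K)
    (h1 : |mu| ≤ k' * K) (h2 : k * |mu| ≤ k' * (lam - k * (X + 2 * K)))
    (h3 : 0 ≤ lam - k * (X + 2 * K)) :
    Q (E lam mu X k K) (E lam mu X k' K) := by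
  have e1 := le_abs_self mu
  have e2 := neg_le_abs mu
  have g1 : 0 ≤ k' * (X + K) := mul_nonneg (by linarith) (by linarith)
  have g2 : 0 ≤ k * (|mu| - mu) := mul_nonneg (by linarith) (by linarith)
  have g3 : 0 ≤ k * (|mu| + mu) := mul_nonneg (by linarith) (by linarith)
  refine Q.of_elem (!![1, k - k', 0; 0, 1, 0; 0, k - k', 1] : Matrix (Fin 3) (Fin 3) ℤ)
    (!![k' * (X + K), k' * (lam - k * (X + 2 * K)) + k * mu, k' * K - mu;
        X + K, lam - k * (X + 2 * K), K;
        k' * (X + K), k' * (lam - k * (X + 2 * K)) - k * mu, k' * K + mu] :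
        Matrix (Fin 3) (Fin 3) ℤ) ?_ ?_ ?_ ?_
  · intro i j; fin_cases i <;> fin_cases j <;> simp <;> linarith
  · intro i j; fin_cases i <;> fin_cases j <;> simp <;> linarith
  · ext i j; fin_cases i <;> fin_cases j <;> simp [E, Matrix.mul_apply, Fin.sum_univ_succ] <;> ring
  · ext i j; fin_cases i <;> fin_cases j <;> simp [E, Matrix.mul_apply, Fin.sum_univ_succ] <;> ring

/-- The `2 × 2` presentation against the thin fan. -/
lemma move_two' {lam mu X k K : ℤ} (hX : 0 ≤ X) (hkX : |mu| ≤ k * X) (h : EG lam mu X k K) :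
    Q (!![lam - k * X, X; k * (lam - k * X - mu), k * X + mu]) (E lam mu X k K) := by
  obtain ⟨hk, h1, h2, h3⟩ := h
  have e1 := le_abs_self mu
  have e2 := neg_le_abs mu
  have e0 := abs_nonneg mu
  have hk0 : 0 ≤ k := by linarith
  have g1 : 0 ≤ k * (lam - k * (X + 2 * K) + mu) := mul_nonneg hk0 (by linarith)
  have g2 : 0 ≤ k * (lam - k * (X + 2 * K) - mu) := mul_nonneg hk0 (by linarith)
  refine two_step
      (!![X, lam - k * (X + 2 * K), K;
        k * X + mu, k * (lam - k * (X + 2 * K)) + k * mu, k * K - mu] :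
        Matrix (Fin 2) (Fin 3) ℤ)
      (!![0, 1; 1, 0; 2 * k, 0] : Matrix (Fin 3) (Fin 2) ℤ)
      (!![k * X + mu, k * (lam - k * (X + 2 * K)) + k * mu,
      k * K - mu; X, lam - k * (X + 2 * K), K;
      k * X - mu, k * (lam - k * (X + 2 * K)) - k * mu, k * K + mu] : Matrix (Fin 3) (Fin 3) ℤ)
      (!![1, 0, 0; 0, 1, 0; 1, 0, 1] : Matrix (Fin 3) (Fin 3) ℤ) ?_ ?_ ?_ ?_ ?_ ?_ ?_
  · intro i j; fin_cases i <;> fin_cases j <;> simp <;> linarith
  · intro i j; fin_cases i <;> fin_cases j <;> simp <;> linarith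
  · intro i j; fin_cases i <;> fin_cases j <;> simp <;> linarith
  · intro i j; fin_cases i <;> fin_cases j <;> simp
  · ext i j; fin_cases i <;> fin_cases j <;> simp [Matrix.mul_apply, Fin.sum_univ_succ] <;> ring
  · ext i j; fin_cases i <;> fin_cases j <;> simp [Matrix.mul_apply, Fin.sum_univ_succ] <;> ring
  · ext i j; fin_cases i <;> fin_cases j <;> simp [E, Matrix.mul_apply, Fin.sum_univ_succ] <;> ring

lemma exists_ceil {m k : ℤ} (hk : 1 ≤ k) : ∃ K, m ≤ k * K ∧ k * K ≤ m + k - 1 := by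
  have hk0 : 0 < k := by linarith
  have h1 := Int.emod_nonneg (m + k - 1) hk0.ne'
  have h2 := Int.emod_lt_of_pos (m + k - 1) hk0
  have h3 := Int.mul_ediv_add_emod (m + k - 1) k
  exact ⟨(m + k - 1) / k, by linarith, by linarith⟩

/-- The weaker standing hypotheses. -/
def Hyp2 (lam mu : ℤ) : Prop := 1 ≤ |mu| ∧ 400 * |mu| ≤ lam

lemma E_all {lam mu X : ℤ} (H : Hyp2 lam mu) (hX : 1 ≤ X) (hX2 : 2 * X ≤ lam - mu) (n : ℕ) :
    ∀ k K : ℤ, k ≤ n → (k - 1) * X ≤ |mu| → k ≤ |mu| → EG lam mu X k K →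
      Q (E lam mu X k K) (C lam mu X |mu|) := by
  obtain ⟨H1, H2⟩ := H
  have e2 := neg_le_abs mu
  induction n using Nat.strong_induction_on with
  | _ n ih =>
    intro k K hkn hkX hkm hE
    have hk1 := hE.1
    rcases eq_or_lt_of_le hk1 with h1 | h1
    · rw [← h1] at hE ⊢
      rw [E_one]
      obtain ⟨-, g1, g2, g3⟩ := hE
      rw [one_mul] at g1 g3
      exact C_par ⟨g1, by linarith, by linarith⟩ ⟨le_rfl, by linarith, by linarith⟩
    · obtain ⟨k', hk'⟩ : ∃ k', k' = (k + 1) / 2 := ⟨_, rfl⟩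
      have a1 : 1 ≤ k' := by omega
      have a2 : k' < k := by omega
      have a3 : k ≤ 2 * k' := by omega
      obtain ⟨K', b1, b2⟩ := exists_ceil (m := |mu|) a1
      have hK'0 : 0 ≤ K' := by
        by_contra hneg
        push Not at hneg
        have : k' * K' ≤ k' * 0 := mul_le_mul_of_nonneg_left hneg.le (by linarith)
        linarith
      have c1 : k * K' ≤ 2 * k' * K' := mul_le_mul_of_nonneg_right a3 hK'0
      have c2 : k' * K' ≤ k * K' := mul_le_mul_of_nonneg_right a2.le hK'0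
      have c3 : k * (X + 2 * K') = (k - 1) * X + X + 2 * (k * K') := by ring
      have c4 : k * (X + 2 * K') ≤ 20 * |mu| + X := by
        rw [c3]; linarith
      have hE' : EG lam mu X k K' := ⟨hk1, by linarith, hK'0, by linarith⟩
      have s1 := E_par (by linarith) hE hE'
      have s2 : Q (E lam mu X k K') (E lam mu X k' K') := by
        refine E_step (by linarith) a1 a2.le hK'0 b1 ?_ (by linarith)
        have d1 : k * |mu| ≤ 2 * k' * |mu| := mul_le_mul_of_nonneg_right a3 (by linarith)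
        have d2 : k' * (2 * |mu|) ≤ k' * (lam - k * (X + 2 * K')) :=
          mul_le_mul_of_nonneg_left (by linarith) (by linarith)
        linarith
      have hE'' : EG lam mu X k' K' := by
        refine ⟨a1, b1, hK'0, ?_⟩
        have d1 : k' * (X + 2 * K') ≤ k * (X + 2 * K') :=
          mul_le_mul_of_nonneg_right a2.le (by linarith)
        linarith
      have s3 := ih (n - 1) (by omega) k' K' (by omega) (by
        have : (k' - 1) * X ≤ (k - 1) * X := mul_le_mul_of_nonneg_right (by linarith) (by linarith)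
        linarith) (by linarith) hE''
      exact (s1.trans s2).trans s3

end Pool.Agent.Run7.h686.SS
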