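import Pool.Agent.Run7.h686.SS.Norm

/-!
# The main theorem over `ℤ`
-/

set_option autoImplicit false

namespace Pool.Agent.Run7.h686.SS

open Matrix Pool.Agent.TH441.SSE2 Pool.Agent.Y321.SE2

lemma exists_k {m X : ℤ} (hm : 1 ≤ m) (hX : 1 ≤ X) :
    ∃ k, 1 ≤ k ∧ m ≤ k * X ∧ k * X ≤ m + X - 1 ∧ k ≤ m := by
  have hX0 : 0 < X := by linarith
  have h1 := Int.emod_nonneg (m + X - 1) hX0.ne'
  have h2 := Int.emod_lt_of_pos (m + X - 1) hX0
  have h3 := Int.mul_ediv_add_emod (m + X - 1) X
  generalize (m + X - 1) / X = k at *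
  generalize (m + X - 1) % X = r at *
  have h4 : k * X = X * k := mul_comm _ _
  have h5 : 1 ≤ k := by
    by_contra hneg
    push Not at hneg
    have : k * X ≤ 0 * X := mul_le_mul_of_nonneg_right (by linarith) hX0.le
    linarith
  refine ⟨k, h5, by linarith, by linarith, ?_⟩
  have h6 : k * X ≤ m * X := by nlinarith [mul_nonneg (sub_nonneg.mpr hm) (sub_nonneg.mpr hX)]
  exact le_of_mul_le_mul_right h6 hX0

/-- Every positive matrix is connected to a presentation of its normal form. -/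
lemma Q_C {A : Matrix (Fin 2) (Fin 2) ℤ} {lam mu X : ℤ} (H : Hyp lam mu) (hA : Pos A)
    (hT : A.trace = lam + mu) (hD : A.det = lam * mu)
    (h500 : 500 * |lam * mu| ≤ (lam + mu) ^ 2) (hX : 1 ≤ X) (hX2 : 2 * X ≤ lam - mu)
    (hs : Sim A (TT lam mu X)) : Q A (C lam mu X |mu|) ∧ Good lam mu X |mu| := by
  have hm1 := H.1
  have hm2 := H.2
  have hlin := H.lin
  have e1 := le_abs_self mu
  have e2 := neg_le_abs mu
  obtain ⟨k, k1, k2, k3, k4⟩ := exists_k hm1 hX
  have hk0 : 0 < k := by linarith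
  have hkm : k * |mu| ≤ |mu| * |mu| := mul_le_mul_of_nonneg_right k4 (by linarith)
  have hmm : |mu| ≤ |mu| * |mu| := le_mul_of_one_le_left (by linarith) hm1
  have hpos : 1 ≤ lam - k * X - mu := by linarith
  have hTk : Pos !![lam - k * X, X; k * (lam - k * X - mu), k * X + mu] := by
    refine ⟨?_, ?_, ?_⟩
    · intro i j
      fin_cases i <;> fin_cases j
      · simp; linarith
      · simp; linarith
      · simpa using mul_nonneg hk0.le (by linarith : (0:ℤ) ≤ lam - k * X - mu)
      · simp; linarith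
    · simpa using hX
    · have : 1 * 1 ≤ k * (lam - k * X - mu) := mul_le_mul k1 hpos (by norm_num) hk0.le
      simpa using this
  have hsk : Sim (TT lam mu X) !![lam - k * X, X; k * (lam - k * X - mu), k * X + mu] := by
    refine ⟨!![1, 0; k, -1], by simp, ?_⟩
    ext i j; fin_cases i <;> fin_cases j <;>
      simp [TT, Matrix.mul_apply, Fin.sum_univ_two] <;> ring
  have hlam : 0 < lam := by linarith
  have hmu0 := mu_ne H
  have hQ1 := sim_both hA hTk (hs.trans hsk).symm (by rw [hT]; linarith)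
    (by rw [hD]; exact mul_ne_zero hlam.ne' hmu0) (by rw [hT, hD]; exact h500)
  have hQ2 := move_two (lam := lam) (mu := mu) (X := X) (k := k) k1 (by linarith) k2 (by linarith)
  exact ⟨hQ1.trans hQ2, le_rfl, by linarith, by linarith⟩

/-- Shift equivalence over `ℤ` implies a chain over the nonnegative integers. -/
theorem Q_main {A B R S : Matrix (Fin 2) (Fin 2) ℤ} {lam mu : ℤ} (H : Hyp lam mu) (hA : Pos A)
    (hB : Pos B) (hT : A.trace = lam + mu) (hD : A.det = lam * mu)
    (h500 : 500 * |lam * mu| ≤ (lam + mu) ^ 2) (l : ℕ)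
    (e1 : A ^ l = R * S) (e3 : A * R = R * B) (e4 : S * A = B * S) : Q A B := by
  have hlin := H.lin
  have hm1 := H.1
  have hlam : 0 < lam := by linarith
  have hmu0 := mu_ne H
  have hdetR : R.det ≠ 0 := by
    intro h
    have h1 := congrArg Matrix.det e1
    rw [Matrix.det_mul, h, zero_mul, Matrix.det_pow, hD] at h1
    exact pow_ne_zero l (mul_ne_zero hlam.ne' hmu0) h1
  have hDB : B.det = lam * mu := by
    have h1 := congrArg Matrix.det e3
    rw [Matrix.det_mul, Matrix.det_mul, hD, mul_comm] at h1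
    exact (mul_left_cancel₀ hdetR h1).symm
  have hTB : B.trace = lam + mu := by
    have h1 : R.adjugate * A * R = R.det • B := by
      rw [Matrix.mul_assoc, e3, ← Matrix.mul_assoc, Matrix.adjugate_mul, Matrix.smul_mul,
        Matrix.one_mul]
    have h2 := congrArg Matrix.trace h1
    rw [Matrix.trace_mul_cycle, Matrix.mul_adjugate, Matrix.smul_mul, Matrix.one_mul,
      Matrix.trace_smul, Matrix.trace_smul, hT, smul_eq_mul, smul_eq_mul] at h2
    exact (mul_left_cancel₀ hdetR h2).symm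
  obtain ⟨X, hX1, hX2, hX3⟩ := exists_TT_red hA H.pos hT hD
  obtain ⟨Y, hY1, hY2, hY3⟩ := exists_TT_red hB H.pos hTB hDB
  have hRR := RR_of_SE H l e1 e3 e4 hX3 hY3
  have hRl := hRR X Y (by simp) (by simp) (by rw [abs_of_pos (by linarith)]; exact hX2)
    (by rw [abs_of_pos (by linarith)]; exact hY2)
  obtain ⟨q1, g1⟩ := Q_C H hA hT hD h500 hX1 hX2 hX3
  obtain ⟨q2, g2⟩ := Q_C H hB hTB hDB h500 hY1 hY2 hY3
  exact (q1.trans (hRl.toQ g1 g2)).trans q2.symm

end Pool.Agent.Run7.h686.SS
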