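import Pool.Agent.Run7.h686.SS.Mu2

/-!
# Large divisors of the large eigenvalue
-/

set_option autoImplicit false

namespace Pool.Agent.Run7.h686.SS.T

open Matrix Pool.Agent.TH441.SSE2 Pool.Agent.Run7.h686.SS

/-- The presentation on three vectors of the sublattice. -/
def PG (p l mu X z β : ℤ) : Matrix (Fin 3) (Fin 3) ℤ :=
  !![β * p + (β * z + mu), β * p - (β * z + mu), β * p;
     β * p + β * z, β * p - β * z, β * p;
     p * (l - 2 * β) + (-X - 2 * β * z - mu), p * (l - 2 * β) - (-X - 2 * β * z - mu),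
       p * (l - 2 * β)]

lemma PG_C {p l X β zp zn mp mn y : ℤ} (hβ : 0 ≤ β) (hzp : 0 ≤ zp) (hzn : 0 ≤ zn)
    (hmp : 0 ≤ mp) (hmn : 0 ≤ mn) (hβp : 2 * (mp + mn) ≤ β * (p - zp - zn)) (hy : 0 ≤ y)
    (hx : 0 ≤ y + (X + 2 * β * (zp - zn) + (mp - mn)))
    (hh : 0 ≤ p * (l - 2 * β) - (y + (X + 2 * β * (zp - zn) + (mp - mn))) - y) :
    Q (C (p * l) (mp - mn) X (2 * β * zp + mp + mn + y)) (PG p l (mp - mn) X (zp - zn) β) ∧
      NN (C (p * l) (mp - mn) X (2 * β * zp + mp + mn + y)) := by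
  have g1 : 0 ≤ β * zn := mul_nonneg hβ hzn
  have g2 : 0 ≤ β * zp := mul_nonneg hβ hzp
  have hR : NN (!![β * zn + mn, β * (p - zp - zn) - mn - mp, β * zp + mp;
      β * zn + mn, β * (p - zp - zn) - 2 * mn, β * zp + mn;
      y + (X + 2 * β * (zp - zn) + (mp - mn)),
      p * (l - 2 * β) - (y + (X + 2 * β * (zp - zn) + (mp - mn))) - y, y] :
      Matrix (Fin 3) (Fin 3) ℤ) := by
    intro i j; fin_cases i <;> fin_cases j <;> simp <;> linarith
  have hU : NN (!![0, 2, 1; 1, 1, 1; 2, 0, 1] : Matrix (Fin 3) (Fin 3) ℤ) := by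
    intro i j; fin_cases i <;> fin_cases j <;> simp
  have e1 : C (p * l) (mp - mn) X (2 * β * zp + mp + mn + y) =
      !![0, 2, 1; 1, 1, 1; 2, 0, 1] * !![β * zn + mn, β * (p - zp - zn) - mn - mp, β * zp + mp;
      β * zn + mn, β * (p - zp - zn) - 2 * mn, β * zp + mn;
      y + (X + 2 * β * (zp - zn) + (mp - mn)),
      p * (l - 2 * β) - (y + (X + 2 * β * (zp - zn) + (mp - mn))) - y, y] := by
    ext i j; fin_cases i <;> fin_cases j <;> simp [C, Matrix.mul_apply, Fin.sum_univ_succ] <;> ring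
  refine ⟨Q.of_elem _ _ hU hR e1 ?_, by rw [e1]; exact NN_mul hU hR⟩
  ext i j; fin_cases i <;> fin_cases j <;> simp [PG, Matrix.mul_apply, Fin.sum_univ_succ] <;> ring

lemma PG_MM {p l mu X z β W q ρ hS q₂ ρ₂ : ℤ} (hβ : 0 ≤ β) (hp : 0 ≤ p)
    (hmu : mu = β * q + ρ) (hρ : 0 ≤ ρ) (hρ' : ρ ≤ β) (hhS : l = hS + 2 * β)
    (hX : X = -(z * l) - mu - (hS * q₂ + ρ₂)) (hρ₂ : 0 ≤ ρ₂) (hρ₂' : ρ₂ ≤ hS)
    (hW1 : W ≤ p + z) (hW2 : W ≤ p - z) (hW0 : 0 ≤ W)
    (hq : -W ≤ q) (hq' : q + 1 ≤ W) (hq₂ : -W ≤ q₂) (hq₂' : q₂ + 1 ≤ W) :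
    Q (PG p l mu X z β) (MM (p * l) mu (p * X + z * (p * l - mu)) W β) := by
  have g1 : 0 ≤ (p - z - W) * β := mul_nonneg (by linarith) hβ
  have g2 : 0 ≤ (p + z - W) * (β - ρ) := mul_nonneg (by linarith) (by linarith)
  have g3 : 0 ≤ (p + z - W) * ρ := mul_nonneg (by linarith) hρ
  have g4 : 0 ≤ p * (hS - ρ₂) := mul_nonneg hp (by linarith)
  have g5 : 0 ≤ p * ρ₂ := mul_nonneg hp hρ₂
  refine two_step
    (!![0, β - ρ, ρ, 0, 0; β, 0, 0, 0, 0; 0, 0, 0, hS - ρ₂, ρ₂] : Matrix (Fin 3) (Fin 5) ℤ)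
    (!![p + z, p - z, p; p + z + q, p - z - q, p; p + z + (q + 1), p - z - (q + 1), p;
        p + z + q₂, p - z - q₂, p; p + z + (q₂ + 1), p - z - (q₂ + 1), p] :
        Matrix (Fin 5) (Fin 3) ℤ)
    (!![0, β - ρ, ρ, 0, 0; β, 0, 0, 0, 0;
        (p - z - W) * β, (p + z - W) * (β - ρ), (p + z - W) * ρ, p * (hS - ρ₂), p * ρ₂] :
        Matrix (Fin 3) (Fin 5) ℤ)
    (!![W, W, 1; W + q, W - q, 1; W + (q + 1), W - (q + 1), 1;
        W + q₂, W - q₂, 1; W + (q₂ + 1), W - (q₂ + 1), 1] :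
        Matrix (Fin 5) (Fin 3) ℤ) ?_ ?_ ?_ ?_ ?_ ?_ ?_
  · intro i j; fin_cases i <;> fin_cases j <;> simp <;> linarith
  · intro i j; fin_cases i <;> fin_cases j <;> simp <;> linarith
  · intro i j; fin_cases i <;> fin_cases j <;> simp <;> linarith
  · intro i j; fin_cases i <;> fin_cases j <;> simp <;> linarith
  · ext i j; fin_cases i <;> fin_cases j <;> simp [Matrix.mul_apply, Fin.sum_univ_succ] <;> ring
  · rw [hX, hhS, hmu]
    ext i j; fin_cases i <;> fin_cases j <;> simp [PG, Matrix.mul_apply, Fin.sum_univ_succ] <;> ring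
  · rw [hX, hhS, hmu]
    ext i j; fin_cases i <;> fin_cases j <;> simp [MM, Matrix.mul_apply, Fin.sum_univ_succ] <;> ring

lemma bal_z2 {N q X0 X' z : ℤ} (hN : 0 < N) (hq : 0 ≤ q) (h : X' = q * X0 + z * N)
    (h1 : 2 * |X0| ≤ N) (h2 : 2 * |X'| ≤ N) : 2 * |z| ≤ q + 1 := by
  have h3 : |z * N| ≤ |X'| + |q * X0| := by
    have : z * N = X' - q * X0 := by rw [h]; ring
    rw [this]
    exact abs_sub _ _
  rw [abs_mul, abs_of_pos hN, abs_mul, abs_of_nonneg hq] at h3
  have h4 : q * (2 * |X0|) ≤ q * N := mul_le_mul_of_nonneg_left h1 hq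
  have h5 : N * (2 * |z|) ≤ N * (q + 1) := by nlinarith
  exact le_of_mul_le_mul_left h5 hN

/-- Multiplication by a large divisor of the large eigenvalue. -/
lemma RR_lam2 {lam mu p l : ℤ} (H : Hyp2 lam mu) (hl : lam = p * l) (hl10 : 10 ≤ l)
    (hl8 : l ≤ 8 * |mu|) (X : ℤ) : RR lam mu X (p * X) := by
  intro X0 X' h1 h2 h3 h4
  have hN := pos H
  obtain ⟨H1, H2⟩ := H
  have h5 : (lam - mu) ∣ X' - p * X0 := by
    have := dvd_sub h2 (dvd_mul_of_dvd_right h1 p)
    have e : X' - p * X - p * (X0 - X) = X' - p * X0 := by ring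
    rwa [e] at this
  obtain ⟨z, hz⟩ := h5
  have hX' : X' = p * X0 + z * (lam - mu) := by linarith
  have hm0 : 0 < |mu| := by linarith
  have hl0 : 0 < l := by linarith
  have hp50 : 50 ≤ p := by
    by_contra hneg
    push Not at hneg
    have : p * l < 50 * l := mul_lt_mul_of_pos_right hneg hl0
    linarith
  have hp0 : 0 < p := by linarith
  have hzb := bal_z2 hN hp0.le hX' h3 h4
  have e1 := neg_le_abs mu
  have e2 := le_abs_self mu
  have z1 := neg_le_abs z
  have z2 := le_abs_self z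
  have z0 := abs_nonneg z
  have x1 := neg_le_abs X0
  have x2 := le_abs_self X0
  -- the scale
  obtain ⟨W, hW⟩ : ∃ W, W = min (p - |z|) (4 * |mu|) := ⟨_, rfl⟩
  have w1 : W ≤ p - |z| := by rw [hW]; exact min_le_left _ _
  have w2 : W ≤ 4 * |mu| := by rw [hW]; exact min_le_right _ _
  have w3 : W = p - |z| ∨ W = 4 * |mu| := by
    rw [hW]; exact min_choice _ _
  have w4 : 2 ≤ W := by
    rcases w3 with h | h <;> omega
  obtain ⟨β, b1, b2⟩ := exists_ceil (m := 4 * |mu|) (k := W) (by linarith)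
  have hβ1 : 1 ≤ β := by
    by_contra hneg
    push Not at hneg
    have : W * β ≤ W * 0 := mul_le_mul_of_nonneg_left (by linarith) (by linarith)
    linarith
  have hβp : 8 * (β * p) + 4 * |mu| ≤ lam := by
    rcases w3 with h | h
    · have f1 : (p - 1) * β ≤ 2 * W * β := mul_le_mul_of_nonneg_right (by linarith) (by linarith)
      have f2 : 49 * β ≤ (p - 1) * β := mul_le_mul_of_nonneg_right (by linarith) (by linarith)
      have f3 : (p - 1) * β = β * p - β := by ring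
      linarith
    · have f1 : β < 2 := by
        by_contra hneg
        push Not at hneg
        have : W * 2 ≤ W * β := mul_le_mul_of_nonneg_left hneg (by linarith)
        linarith
      have f2 : β = 1 := by omega
      have f3 : p * 10 ≤ p * l := mul_le_mul_of_nonneg_left hl10 hp0.le
      rw [f2, one_mul]
      linarith
  -- the sublattice height
  obtain ⟨hS, hhS⟩ : ∃ hS, hS = l - 2 * β := ⟨_, rfl⟩
  have hWS : 7 * |mu| ≤ W * hS := by
    have f0 : W * hS = W * l - 2 * (W * β) := by rw [hhS]; ring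
    rcases w3 with h | h
    · have f1 : (p - 1) * l ≤ 2 * W * l := mul_le_mul_of_nonneg_right (by linarith) hl0.le
      have f2 : (p - 1) * l = lam - l := by rw [hl]; ring
      linarith
    · have f1 : β < 2 := by
        by_contra hneg
        push Not at hneg
        have : W * 2 ≤ W * β := mul_le_mul_of_nonneg_left hneg (by linarith)
        linarith
      have f2 : β = 1 := by omega
      have f3 : W * 8 ≤ W * hS := by
        apply mul_le_mul_of_nonneg_left _ (by linarith)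
        rw [hhS, f2]; linarith
      linarith
  have hS0 : 0 < hS := by
    by_contra hneg
    push Not at hneg
    have : W * hS ≤ W * 0 := mul_le_mul_of_nonneg_left hneg (by linarith)
    linarith
  -- the parameter
  have hY : p * (2 * |X0 + z * l|) ≤ p * (l + 2 * |mu|) := by
    have f1 : p * |X0 + z * l| = |X' + z * mu| := by
      have f2 : X' + z * mu = p * (X0 + z * l) := by
        rw [hX', hl]; ring
      rw [f2, abs_mul, abs_of_nonneg (by linarith : (0:ℤ) ≤ p)]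
    have f3 : |X' + z * mu| ≤ |X'| + |z| * |mu| := by
      rw [← abs_mul]; exact abs_add_le _ _
    have f4 : |z| * |mu| ≤ (p - 1) * |mu| := mul_le_mul_of_nonneg_right (by linarith) hm0.le
    nlinarith
  have hY' : 2 * |X0 + z * l| ≤ l + 2 * |mu| := le_of_mul_le_mul_left hY (by linarith)
  have y1 := neg_le_abs (X0 + z * l)
  have y2 := le_abs_self (X0 + z * l)
  have hβ0 : 0 < β := by linarith
  have m1 := Int.emod_nonneg mu hβ0.ne'
  have m2 := Int.emod_lt_of_pos mu hβ0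
  have m3 := Int.mul_ediv_add_emod mu β
  generalize mu / β = q at m3
  generalize mu % β = ρ at m1 m2 m3
  have s1 := Int.emod_nonneg (-(X0 + z * l) - mu) hS0.ne'
  have s2 := Int.emod_lt_of_pos (-(X0 + z * l) - mu) hS0
  have s3 := Int.mul_ediv_add_emod (-(X0 + z * l) - mu) hS
  generalize (-(X0 + z * l) - mu) / hS = q₂ at s3
  generalize (-(X0 + z * l) - mu) % hS = ρ₂ at s1 s2 s3
  have p1 : β * (4 * q) ≤ β * W := by
    have : β * (4 * q) = 4 * (β * q) := by ring
    rw [this, mul_comm β W]; linarith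
  have p2 : 4 * q ≤ W := le_of_mul_le_mul_left p1 hβ0
  have p3 : β * (-W) < β * (4 * (q + 1)) := by
    have e : β * (4 * (q + 1)) = 4 * (β * q) + 4 * β := by ring
    have e' : β * (-W) = -(W * β) := by ring
    rw [e, e']; linarith
  have p4 : -W < 4 * (q + 1) := lt_of_mul_lt_mul_left p3 hβ0.le
  have r1 : hS * q₂ < hS * W := by linarith [mul_comm hS W]
  have r2 : q₂ < W := lt_of_mul_lt_mul_left r1 hS0.le
  have r3 : hS * (-W) < hS * (q₂ + 1) := by
    have e : hS * (q₂ + 1) = hS * q₂ + hS := by ring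
    have e' : hS * (-W) = -(W * hS) := by ring
    rw [e, e']; linarith
  have r4 : -W < q₂ + 1 := lt_of_mul_lt_mul_left r3 hS0.le
  have hQ2 := PG_MM (p := p) (l := l) (mu := mu) (X := X0) (z := z) (β := β) (W := W) (q := q)
    (ρ := ρ) (hS := hS) (q₂ := q₂) (ρ₂ := ρ₂) hβ0.le hp0.le m3.symm m1 m2.le (by linarith)
    (by linarith) s1 s2.le (by linarith) (by linarith) (by linarith) (by omega) (by omega)
    (by omega) (by omega)
  rw [← hl, ← hX'] at hQ2
  obtain ⟨K, hK, hQ3⟩ := MM_all (X := X') ⟨H1, H2⟩ h4 W.toNat W β w4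
    (Int.self_le_toNat _) b1 (by
      have : (W - 1) * β = W * β - β := by ring
      rw [this]; linarith)
  -- the side of the big lattice
  obtain ⟨zp, zn, t1, t2, t3, t4⟩ := pos_part z
  obtain ⟨mp, mn, n1, n2, n3, n4⟩ := parts mu
  obtain ⟨c, hc⟩ : ∃ c, c = X0 + 2 * β * z + mu := ⟨_, rfl⟩
  obtain ⟨y, hy⟩ : ∃ y, y = max 0 (-c) := ⟨_, rfl⟩
  have hy0 : 0 ≤ y := by rw [hy]; exact le_max_left _ _
  have hy1 : -c ≤ y := by rw [hy]; exact le_max_right _ _
  have hy2 : y + y + c ≤ |c| := by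
    rcases le_total 0 (-c) with h | h
    · rw [hy, max_eq_right h, abs_of_nonpos (by linarith)]; linarith
    · rw [hy, max_eq_left h]; linarith [le_abs_self c]
  have hβz : |β * z| = β * |z| := by rw [abs_mul, abs_of_pos hβ0]
  have bz1 := neg_le_abs (β * z)
  have bz2 := le_abs_self (β * z)
  have bz3 : β * (2 * |z|) ≤ β * (p + 1) := mul_le_mul_of_nonneg_left hzb hβ0.le
  have bz4 : β * (p + 1) ≤ 2 * (β * p) := by
    have : β * 1 ≤ β * p := mul_le_mul_of_nonneg_left (by linarith) hβ0.le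
    have e : β * (p + 1) = β * p + β * 1 := by ring
    linarith
  have hcb : |c| ≤ |X0| + 2 * (β * p) + |mu| := by
    rw [hβz] at bz1 bz2
    have e : c = X0 + 2 * (β * z) + mu := by rw [hc]; ring
    rw [e, abs_le]
    constructor <;> linarith
  have hph : p * (l - 2 * β) = lam - 2 * (β * p) := by rw [hl]; ring
  have hD1 := PG_C (p := p) (l := l) (X := X0) (β := β) (zp := zp) (zn := zn) (mp := mp) (mn := mn)
    (y := y) hβ0.le t1 t2 n1 n2 (by
      have e : p - zp - zn = p - |z| := by linarith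
      rw [e, n4]
      have : W * β ≤ (p - |z|) * β := mul_le_mul_of_nonneg_right w1 hβ0.le
      have e' : β * (p - |z|) = (p - |z|) * β := by ring
      rw [e']; linarith) hy0 (by
      rw [t3, ← n3]; linarith) (by
      rw [t3, ← n3, hph]; linarith)
  rw [t3, ← n3, ← hl] at hD1
  exact ⟨_, _, good_of_nn hD1.2, hK, (hD1.1.trans hQ2).trans hQ3⟩

end Pool.Agent.Run7.h686.SS.T
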