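import Pool.Agent.TH441.SSE2.Basic

/-!
# Linear presentations of `2 × 2` integer matrices with integer eigenvalues
-/

set_option autoImplicit false

namespace Pool.Agent.Run7.h686.SS

open Matrix Pool.Agent.TH441.SSE2

/-- A step through a common product. -/
lemma two_step {n m k : ℕ} (U : Matrix (Fin n) (Fin k) ℤ) (R : Matrix (Fin k) (Fin n) ℤ)
    (U' : Matrix (Fin m) (Fin k) ℤ) (R' : Matrix (Fin k) (Fin m) ℤ)
    (hU : NN U) (hR : NN R) (hU' : NN U') (hR' : NN R') (h : R * U = R' * U')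
    {A : Matrix (Fin n) (Fin n) ℤ} {B : Matrix (Fin m) (Fin m) ℤ} (hA : A = U * R)
    (hB : B = U' * R') : Q A B :=
  (Q.of_elem U R hU hR hA rfl).trans (Q.of_elem R' U' hR' hU' h hB)

lemma NN_mul {n m k : ℕ} {U : Matrix (Fin n) (Fin k) ℤ} {R : Matrix (Fin k) (Fin m) ℤ}
    (hU : NN U) (hR : NN R) : NN (U * R) := by
  intro i j
  rw [Matrix.mul_apply]
  exact Finset.sum_nonneg fun l _ => mul_nonneg (hU i l) (hR l j)

/-- The presentation on the fan `(1,-1), (1,0), (1,1)`. -/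
def C (lam mu X K : ℤ) : Matrix (Fin 3) (Fin 3) ℤ :=
  !![K + X, lam - 2 * K - X + mu, K - mu;
     K + X, lam - 2 * K - X, K;
     K + X, lam - 2 * K - X - mu, K + mu]

/-- Nonnegativity of `C`. -/
def Good (lam mu X K : ℤ) : Prop := |mu| ≤ K ∧ 0 ≤ K + X ∧ 2 * K + X + |mu| ≤ lam

lemma C_nn {lam mu X K : ℤ} (h : Good lam mu X K) : NN (C lam mu X K) := by
  obtain ⟨h1, h2, h3⟩ := h
  have e1 := le_abs_self mu
  have e2 := neg_le_abs mu
  intro i j
  fin_cases i <;> fin_cases j <;> simp [C] <;> linarith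

lemma good_of_nn {lam mu X K : ℤ} (h : NN (C lam mu X K)) : Good lam mu X K := by
  have h1 := h 0 2
  have h2 := h 2 2
  have h3 := h 0 1
  have h4 := h 2 1
  have h5 := h 0 0
  simp [C] at h1 h2 h3 h4 h5
  refine ⟨abs_le.mpr ⟨by linarith, by linarith⟩, by linarith, ?_⟩
  rcases abs_cases mu with ⟨h6, _⟩ | ⟨h6, _⟩ <;> rw [h6] <;> linarith

/-- Changing the redundant parameter. -/
lemma C_par' {lam mu X K K' : ℤ} (h : Good lam mu X K) (h' : Good lam mu X K') (hK : K' ≤ K) :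
    Q (C lam mu X K) (C lam mu X K') := by
  obtain ⟨h1, h2, h3⟩ := h
  obtain ⟨h1', h2', h3'⟩ := h'
  have e1 := le_abs_self mu
  have e2 := neg_le_abs mu
  refine two_step
    (!![K' + X, lam - 2 * K - X + mu, K' - mu, K - K';
        K' + X, lam - 2 * K - X, K', K - K';
        K' + X, lam - 2 * K - X - mu, K' + mu, K - K'] : Matrix (Fin 3) (Fin 4) ℤ)
    (!![1, 0, 0; 0, 1, 0; 0, 0, 1; 1, 0, 1] : Matrix (Fin 4) (Fin 3) ℤ)
    (!![K' + X, lam - 2 * K - X + mu, K' - mu, K - K';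
        K' + X, lam - 2 * K - X, K', K - K';
        K' + X, lam - 2 * K - X - mu, K' + mu, K - K'] : Matrix (Fin 3) (Fin 4) ℤ)
    (!![1, 0, 0; 0, 1, 0; 0, 0, 1; 0, 2, 0] : Matrix (Fin 4) (Fin 3) ℤ) ?_ ?_ ?_ ?_ ?_ ?_ ?_
  · intro i j; fin_cases i <;> fin_cases j <;> simp <;> linarith
  · intro i j; fin_cases i <;> fin_cases j <;> simp
  · intro i j; fin_cases i <;> fin_cases j <;> simp <;> linarith
  · intro i j; fin_cases i <;> fin_cases j <;> simp
  · ext i j; fin_cases i <;> fin_cases j <;> simp [Matrix.mul_apply, Fin.sum_univ_succ] <;> ring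
  · ext i j; fin_cases i <;> fin_cases j <;> simp [C, Matrix.mul_apply, Fin.sum_univ_succ] <;> ring
  · ext i j; fin_cases i <;> fin_cases j <;> simp [C, Matrix.mul_apply, Fin.sum_univ_succ] <;> ring

lemma C_par {lam mu X K K' : ℤ} (h : Good lam mu X K) (h' : Good lam mu X K') :
    Q (C lam mu X K) (C lam mu X K') := by
  rcases le_total K' K with hK | hK
  · exact C_par' h h' hK
  · exact (C_par' h' h hK).symm

/-- Changing the sign of the eigenvector. -/
lemma C_sign {lam mu X K : ℤ} (h : Good lam mu (-X) K) (h' : Good lam mu X (K - X + |mu|)) :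
    Q (C lam mu (-X) K) (C lam mu X (K - X + |mu|)) := by
  obtain ⟨h1, h2, h3⟩ := h
  obtain ⟨h1', h2', h3'⟩ := h'
  have e1 := le_abs_self mu
  have e2 := neg_le_abs mu
  have e0 := abs_nonneg mu
  generalize |mu| = m at *
  refine two_step
    (!![K - mu, lam - 2 * K + X - 2 * m - mu, K - X, m + mu;
        K, lam - 2 * K + X - 2 * m, K - X, m;
        K + mu, lam - 2 * K + X - 2 * m + mu, K - X, m - mu] : Matrix (Fin 3) (Fin 4) ℤ)
    (!![0, 0, 1; 0, 1, 0; 1, 0, 0; 0, 2, 0] : Matrix (Fin 4) (Fin 3) ℤ)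
    (!![K + mu, lam - 2 * K + X - 2 * m + mu, K - X, m - mu;
        K, lam - 2 * K + X - 2 * m, K - X, m;
        K - mu, lam - 2 * K + X - 2 * m - mu, K - X, m + mu] : Matrix (Fin 3) (Fin 4) ℤ)
    (!![1, 0, 0; 0, 1, 0; 0, 0, 1; 1, 0, 1] : Matrix (Fin 4) (Fin 3) ℤ) ?_ ?_ ?_ ?_ ?_ ?_ ?_
  · intro i j; fin_cases i <;> fin_cases j <;> simp <;> linarith
  · intro i j; fin_cases i <;> fin_cases j <;> simp
  · intro i j; fin_cases i <;> fin_cases j <;> simp <;> linarith
  · intro i j; fin_cases i <;> fin_cases j <;> simp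
  · ext i j; fin_cases i <;> fin_cases j <;> simp [Matrix.mul_apply, Fin.sum_univ_succ] <;> ring
  · ext i j; fin_cases i <;> fin_cases j <;> simp [C, Matrix.mul_apply, Fin.sum_univ_succ] <;> ring
  · ext i j; fin_cases i <;> fin_cases j <;> simp [C, Matrix.mul_apply, Fin.sum_univ_succ] <;> ring

end Pool.Agent.Run7.h686.SS
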