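import Pool.Agent.Run7.h686.SS.Lin

/-!
# The division moves
-/

set_option autoImplicit false

namespace Pool.Agent.Run7.h686.SS

open Matrix Pool.Agent.TH441.SSE2

/-- A divisor of the large eigenvalue. -/
lemma move_lam {l mu X K p zp zn : ℤ} (hzp : 0 ≤ zp) (hzn : 0 ≤ zn) (hp : zp + zn + 1 ≤ p)
    (h : Good l mu (X + (zp - zn) * l) K) :
    Q (C (p * l) mu X (l * zp + K))
        (C (p * l) mu (p * X + (zp - zn) * (p * l - mu)) (p * K + (zp - zn) * mu)) ∧
      NN (C (p * l) mu X (l * zp + K)) ∧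
      NN (C (p * l) mu (p * X + (zp - zn) * (p * l - mu)) (p * K + (zp - zn) * mu)) := by
  have hU := C_nn h
  have hR : NN (!![zn + 1, p - zp - zn - 1, zp; zn, p - zp - zn, zp; zn, p - zp - zn - 1, zp + 1] :
      Matrix (Fin 3) (Fin 3) ℤ) := by
    intro i j; fin_cases i <;> fin_cases j <;> simp <;> linarith
  have e1 : C (p * l) mu X (l * zp + K) = C l mu (X + (zp - zn) * l) K *
      !![zn + 1, p - zp - zn - 1, zp; zn, p - zp - zn, zp; zn, p - zp - zn - 1, zp + 1] := by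
    ext i j; fin_cases i <;> fin_cases j <;> simp [C, Matrix.mul_apply, Fin.sum_univ_succ] <;> ring
  have e2 : C (p * l) mu (p * X + (zp - zn) * (p * l - mu)) (p * K + (zp - zn) * mu) =
      !![zn + 1, p - zp - zn - 1, zp; zn, p - zp - zn, zp; zn, p - zp - zn - 1, zp + 1] *
      C l mu (X + (zp - zn) * l) K := by
    ext i j; fin_cases i <;> fin_cases j <;> simp [C, Matrix.mul_apply, Fin.sum_univ_succ] <;> ring
  refine ⟨Q.of_elem _ _ hU hR e1 e2, ?_, ?_⟩
  · rw [e1]; exact NN_mul hU hR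
  · rw [e2]; exact NN_mul hR hU

lemma bound_aux {p mu z j : ℤ} (hz : |z| ≤ p) (hj : |j| ≤ 1) (hp : 0 ≤ p) :
    |(z + p * j) * mu| ≤ 2 * (p * |mu|) := by
  rw [abs_mul]
  have h1 : |z + p * j| ≤ 2 * p := by
    refine (abs_add_le _ _).trans ?_
    rw [abs_mul, abs_of_nonneg hp]
    nlinarith [abs_nonneg j]
  calc |z + p * j| * |mu| ≤ 2 * p * |mu| := mul_le_mul_of_nonneg_right h1 (abs_nonneg _)
    _ = 2 * (p * |mu|) := by ring

/-- A divisor of the small eigenvalue. -/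
lemma move_mu {s mu n Y K p zp zn : ℤ} (hzp : 0 ≤ zp) (hzn : 0 ≤ zn) (hp : zp + zn + 1 ≤ p)
    (hn : 0 ≤ n) (h1 : 2 * (p * |mu|) ≤ K) (h2 : 0 ≤ K + Y)
    (h3 : 2 * K + Y + 2 * (p * |mu|) ≤ s) :
    Q (C (p * s + n * (p + 1)) (p * mu) (p * Y - n * (zp - zn)) (p * K + n * zp))
        (C (p * s + n * (p + 1)) (p * mu) (Y + (zp - zn) * (s + n - mu))
          ((s + n) * zn + K + (zp - zn) * mu)) ∧
      NN (C (p * s + n * (p + 1)) (p * mu) (p * Y - n * (zp - zn)) (p * K + n * zp)) ∧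
      NN (C (p * s + n * (p + 1)) (p * mu) (Y + (zp - zn) * (s + n - mu))
          ((s + n) * zn + K + (zp - zn) * mu)) := by
  have hp0 : 0 ≤ p := by linarith
  have hp1 : 1 ≤ p := by linarith
  have hz : |zp - zn| ≤ p := abs_le.mpr ⟨by linarith, by linarith⟩
  have b0 := abs_le.mp (bound_aux (mu := mu) (j := 0) hz (by norm_num) hp0)
  have b1 := abs_le.mp (bound_aux (mu := mu) (j := 1) hz (by norm_num) hp0)
  have b2 := abs_le.mp (bound_aux (mu := mu) (j := -1) hz (by norm_num) hp0)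
  have hm : |mu| ≤ p * |mu| := le_mul_of_one_le_left (abs_nonneg _) hp1
  have hm0 := abs_nonneg mu
  have e1 := le_abs_self mu
  have e2 := neg_le_abs mu
  obtain ⟨b01, b02⟩ := b0
  obtain ⟨b11, b12⟩ := b1
  obtain ⟨b21, b22⟩ := b2
  have hU : NN (!![K + Y, s - 2 * K - Y + mu, K - mu, n;
        K + Y, s - 2 * K - Y, K, n;
        K + Y, s - 2 * K - Y - mu, K + mu, n] : Matrix (Fin 3) (Fin 4) ℤ) := by
    intro i j; fin_cases i <;> fin_cases j <;> simp <;> linarith
  have hR : NN (!![p, 0, 0; 0, p, 0; 0, 0, p; zn, p + 1 - zp - zn, zp] :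
      Matrix (Fin 4) (Fin 3) ℤ) := by
    intro i j; fin_cases i <;> fin_cases j <;> simp <;> linarith
  have hU' : NN (!![K + Y, s - 2 * K - Y - (zp - zn - p) * mu, K + (zp - zn - p) * mu, n;
        K + Y, s - 2 * K - Y - (zp - zn) * mu, K + (zp - zn) * mu, n;
        K + Y, s - 2 * K - Y - (zp - zn + p) * mu, K + (zp - zn + p) * mu, n] :
        Matrix (Fin 3) (Fin 4) ℤ) := by
    intro i j; fin_cases i <;> fin_cases j <;> simp <;> linarith
  have hR' : NN (!![zp + 1, p - zp - zn - 1, zn; zp, p - zp - zn, zn;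
      zp, p - zp - zn - 1, zn + 1; zp, p + 1 - zp - zn, zn] : Matrix (Fin 4) (Fin 3) ℤ) := by
    intro i j; fin_cases i <;> fin_cases j <;> simp <;> linarith
  have f1 : C (p * s + n * (p + 1)) (p * mu) (p * Y - n * (zp - zn)) (p * K + n * zp) =
      (!![K + Y, s - 2 * K - Y + mu, K - mu, n;
        K + Y, s - 2 * K - Y, K, n;
        K + Y, s - 2 * K - Y - mu, K + mu, n] : Matrix (Fin 3) (Fin 4) ℤ) *
      (!![p, 0, 0; 0, p, 0; 0, 0, p; zn, p + 1 - zp - zn, zp] :
      Matrix (Fin 4) (Fin 3) ℤ) := by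
    ext i j; fin_cases i <;> fin_cases j <;> simp [C, Matrix.mul_apply, Fin.sum_univ_succ] <;> ring
  have f2 : C (p * s + n * (p + 1)) (p * mu) (Y + (zp - zn) * (s + n - mu))
          ((s + n) * zn + K + (zp - zn) * mu) =
      (!![K + Y, s - 2 * K - Y - (zp - zn - p) * mu, K + (zp - zn - p) * mu, n;
        K + Y, s - 2 * K - Y - (zp - zn) * mu, K + (zp - zn) * mu, n;
        K + Y, s - 2 * K - Y - (zp - zn + p) * mu, K + (zp - zn + p) * mu, n] :
        Matrix (Fin 3) (Fin 4) ℤ) *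
      (!![zp + 1, p - zp - zn - 1, zn; zp, p - zp - zn, zn;
      zp, p - zp - zn - 1, zn + 1; zp, p + 1 - zp - zn, zn] : Matrix (Fin 4) (Fin 3) ℤ) := by
    ext i j; fin_cases i <;> fin_cases j <;> simp [C, Matrix.mul_apply, Fin.sum_univ_succ] <;> ring
  refine ⟨two_step _ _ _ _ hU hR hU' hR' ?_ f1 f2, ?_, ?_⟩
  · ext i j; fin_cases i <;> fin_cases j <;> simp [Matrix.mul_apply, Fin.sum_univ_succ] <;> ring
  · rw [f1]; exact NN_mul hU hR
  · rw [f2]; exact NN_mul hU' hR'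

/-- The `2 × 2` presentation. -/
lemma move_two {lam mu X k : ℤ} (hk : 1 ≤ k) (hX : 0 ≤ X) (hkX : |mu| ≤ k * X)
    (hl : k * X + 3 * (k * |mu|) ≤ lam) :
    Q (!![lam - k * X, X; k * (lam - k * X - mu), k * X + mu]) (C lam mu X |mu|) := by
  have e1 := le_abs_self mu
  have e2 := neg_le_abs mu
  have e0 := abs_nonneg mu
  generalize |mu| = m at *
  have hkm : m ≤ k * m := le_mul_of_one_le_left e0 hk
  have hkm0 : 0 ≤ k * m := le_trans e0 hkm
  have hk0 : 0 ≤ k := by linarith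
  have g1 : 0 ≤ k * (lam - k * X - 2 * (k * m) + mu) := mul_nonneg hk0 (by linarith)
  have g2 : 0 ≤ k * (lam - k * X - 2 * (k * m) - mu) := mul_nonneg hk0 (by linarith)
  have g3 : 0 ≤ k * (m - mu) := mul_nonneg hk0 (by linarith)
  have g4 : 0 ≤ k * (m + mu) := mul_nonneg hk0 (by linarith)
  refine Q.trans (m := 3) (B := (!![k * X + mu, k * (lam - k * X - 2 * (k * m)) + k * mu,
      k * m - mu; X, lam - k * X - 2 * (k * m), m;
      k * X - mu, k * (lam - k * X - 2 * (k * m)) - k * mu, k * m + mu] *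
      !![1, 0, 0; 0, 1, 0; 1, 0, 1] : Matrix (Fin 3) (Fin 3) ℤ)) ?_ ?_
  · refine two_step
      (!![X, lam - k * X - 2 * (k * m), m;
        k * X + mu, k * (lam - k * X - 2 * (k * m)) + k * mu, k * m - mu] :
        Matrix (Fin 2) (Fin 3) ℤ)
      (!![0, 1; 1, 0; 2 * k, 0] : Matrix (Fin 3) (Fin 2) ℤ)
      _ _ ?_ ?_ ?_ ?_ ?_ ?_ rfl
    · intro i j; fin_cases i <;> fin_cases j <;> simp <;> linarith
    · intro i j; fin_cases i <;> fin_cases j <;> simp <;> linarith
    · intro i j; fin_cases i <;> fin_cases j <;> simp <;> linarith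
    · intro i j; fin_cases i <;> fin_cases j <;> simp
    · ext i j; fin_cases i <;> fin_cases j <;> simp [Matrix.mul_apply, Fin.sum_univ_succ] <;> ring
    · ext i j; fin_cases i <;> fin_cases j <;> simp [Matrix.mul_apply, Fin.sum_univ_succ] <;> ring
  · refine Q.of_elem (!![1, k - 1, 0; 0, 1, 0; 0, k - 1, 1] : Matrix (Fin 3) (Fin 3) ℤ)
      (!![m + X, lam - k * (2 * m + X) + k * mu, m - mu;
        m + X, lam - k * (2 * m + X), m;
        m + X, lam - k * (2 * m + X) - k * mu, m + mu] : Matrix (Fin 3) (Fin 3) ℤ) ?_ ?_ ?_ ?_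
    · intro i j; fin_cases i <;> fin_cases j <;> simp <;> linarith
    · intro i j; fin_cases i <;> fin_cases j <;> simp <;> linarith
    · ext i j; fin_cases i <;> fin_cases j <;> simp [Matrix.mul_apply, Fin.sum_univ_succ] <;> ring
    · ext i j; fin_cases i <;> fin_cases j <;> simp [C, Matrix.mul_apply, Fin.sum_univ_succ] <;> ring

end Pool.Agent.Run7.h686.SS
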