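import Pool.Agent.Run7.h686.SS.EE

/-!
# Three-point presentations at all scales
-/

set_option autoImplicit false

namespace Pool.Agent.Run7.h686.SS

open Matrix Pool.Agent.TH441.SSE2

/-- The presentation on `(β, μ), (β, 0), (λ - 2Wβ, -X - Wμ)`. -/
def MM (lam mu X W β : ℤ) : Matrix (Fin 3) (Fin 3) ℤ :=
  !![W * β + mu, W * β - mu, β;
     W * β, W * β, β;
     W * (lam - 2 * W * β) + (-X - W * mu), W * (lam - 2 * W * β) - (-X - W * mu),
       lam - 2 * W * β]

/-- Change of scale. -/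
lemma MM_step {lam mu X W W' β β' q ρ hS q₂ ρ₂ : ℤ} (hW : W ≤ W') (hβ' : 0 ≤ β') (hβ : β' ≤ β)
    (hmu : mu = β' * q + ρ) (hρ : 0 ≤ ρ) (hρ' : ρ ≤ β')
    (hlam : lam = hS + 2 * W' * β' + 2 * W * (β - β')) (hX : X = -(W' * mu) - (hS * q₂ + ρ₂))
    (hρ₂ : 0 ≤ ρ₂) (hρ₂' : ρ₂ ≤ hS)
    (hq : -W ≤ q) (hq' : q + 1 ≤ W) (hq₂ : -W ≤ q₂) (hq₂' : q₂ + 1 ≤ W) :
    Q (MM lam mu X W β) (MM lam mu X W' β') := by
  have hW0 : 0 ≤ W := by linarith
  have g1 : 0 ≤ (W' - W) * β' := mul_nonneg (by linarith) hβ'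
  have g2 : 0 ≤ (W' - W) * (β' - ρ) := mul_nonneg (by linarith) (by linarith)
  have g3 : 0 ≤ (W' - W) * ρ := mul_nonneg (by linarith) (by linarith)
  have g4 : 0 ≤ 2 * W * (β - β') := mul_nonneg (by linarith) (by linarith)
  refine two_step
    (!![β - β', β' - ρ, ρ, 0, 0; β, 0, 0, 0, 0;
        (W' - W) * β', (W' - W) * (β' - ρ), (W' - W) * ρ, hS - ρ₂, ρ₂] :
        Matrix (Fin 3) (Fin 5) ℤ)
    (!![W, W, 1; W + q, W - q, 1; W + (q + 1), W - (q + 1), 1; W + q₂, W - q₂, 1;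
        W + (q₂ + 1), W - (q₂ + 1), 1] : Matrix (Fin 5) (Fin 3) ℤ)
    (!![0, β' - ρ, ρ, 0, 0; β', 0, 0, 0, 0;
        2 * W * (β - β'), 0, 0, hS - ρ₂, ρ₂] :
        Matrix (Fin 3) (Fin 5) ℤ)
    (!![W', W', 1; W' + q, W' - q, 1; W' + (q + 1), W' - (q + 1), 1; W' + q₂, W' - q₂, 1;
        W' + (q₂ + 1), W' - (q₂ + 1), 1] : Matrix (Fin 5) (Fin 3) ℤ) ?_ ?_ ?_ ?_ ?_ ?_ ?_
  · intro i j; fin_cases i <;> fin_cases j <;> simp <;> linarith
  · intro i j; fin_cases i <;> fin_cases j <;> simp <;> linarith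
  · intro i j; fin_cases i <;> fin_cases j <;> simp <;> linarith
  · intro i j; fin_cases i <;> fin_cases j <;> simp <;> linarith
  · ext i j; fin_cases i <;> fin_cases j <;> simp [Matrix.mul_apply, Fin.sum_univ_succ] <;> ring
  · rw [hX, hlam, hmu]
    ext i j; fin_cases i <;> fin_cases j <;> simp [MM, Matrix.mul_apply, Fin.sum_univ_succ] <;> ring
  · rw [hX, hlam, hmu]
    ext i j; fin_cases i <;> fin_cases j <;> simp [MM, Matrix.mul_apply, Fin.sum_univ_succ] <;> ring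

lemma parts (mu : ℤ) : ∃ mp mn : ℤ, 0 ≤ mp ∧ 0 ≤ mn ∧ mu = mp - mn ∧ mp + mn = |mu| := by
  obtain ⟨mp, mn, h1, h2, h3, h4⟩ := pos_part mu
  exact ⟨mp, mn, h1, h2, h3.symm, h4⟩

/-- The base of the scales. -/
lemma MM_base {lam mu X W β y : ℤ} (hW : 1 ≤ W) (hβ : 2 * |mu| ≤ β) (hy : 0 ≤ y)
    (hx : 0 ≤ y + X + W * mu) (hh : 0 ≤ lam - 2 * W * β - (y + X + W * mu) - y) :
    Q (MM lam mu X W β) (C lam mu X (W * |mu| + y)) := by
  obtain ⟨mp, mn, h1, h2, h3, h4⟩ := parts mu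
  rw [← h4] at hβ ⊢
  refine Q.of_elem
    (!![mn, β - mp - mn, mp; mn, β - 2 * mn, mn;
      y + X + W * mu, lam - 2 * W * β - (y + X + W * mu) - y, y] : Matrix (Fin 3) (Fin 3) ℤ)
    (!![W - 1, W + 1, 1; W, W, 1; W + 1, W - 1, 1] : Matrix (Fin 3) (Fin 3) ℤ) ?_ ?_ ?_ ?_
  · intro i j; fin_cases i <;> fin_cases j <;> simp <;> linarith
  · intro i j; fin_cases i <;> fin_cases j <;> simp <;> linarith
  · rw [h3]
    ext i j; fin_cases i <;> fin_cases j <;> simp [MM, Matrix.mul_apply, Fin.sum_univ_succ] <;> ring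
  · rw [h3]
    ext i j; fin_cases i <;> fin_cases j <;> simp [C, Matrix.mul_apply, Fin.sum_univ_succ] <;> ring

lemma MM_all {lam mu X : ℤ} (H : Hyp2 lam mu) (hX : 2 * |X| ≤ lam - mu) (n : ℕ) :
    ∀ W β : ℤ, 2 ≤ W → W ≤ n → 4 * |mu| ≤ W * β → (W - 1) * β ≤ 8 * |mu| →
      ∃ K, Good lam mu X K ∧ Q (MM lam mu X W β) (C lam mu X K) := by
  obtain ⟨H1, H2⟩ := H
  have e1 := le_abs_self mu
  have e2 := neg_le_abs mu
  have a1 := le_abs_self X
  have a2 := neg_le_abs X
  induction n using Nat.strong_induction_on with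
  | _ n ih =>
    intro W β hW hWn hWβ hWβ'
    have hβ1 : 1 ≤ β := by
      by_contra hneg
      push Not at hneg
      have : W * β ≤ W * 0 := mul_le_mul_of_nonneg_left (by linarith) (by linarith)
      linarith
    rcases eq_or_lt_of_le hW with h1 | h1
    · -- base
      rw [← h1] at hWβ hWβ' ⊢
      obtain ⟨y, hy⟩ : ∃ y, y = max 0 (-(X + 2 * mu)) := ⟨_, rfl⟩
      have hy0 : 0 ≤ y := by rw [hy]; exact le_max_left _ _
      have hy1 : -(X + 2 * mu) ≤ y := by rw [hy]; exact le_max_right _ _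
      have hy2 : y + y + (X + 2 * mu) ≤ |X| + 2 * |mu| := by
        rcases le_total 0 (-(X + 2 * mu)) with h | h
        · rw [hy, max_eq_right h]; linarith
        · rw [hy, max_eq_left h]; linarith
      have hb := MM_base (lam := lam) (mu := mu) (X := X) (W := 2) (β := β) (y := y) (by norm_num)
        (by linarith) hy0 (by linarith) (by linarith)
      refine ⟨_, ?_, hb⟩
      exact ⟨by linarith, by linarith, by linarith⟩
    · obtain ⟨W₁, hW₁⟩ : ∃ W₁, W₁ = (W + 1) / 2 := ⟨_, rfl⟩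
      have b1 : 2 ≤ W₁ := by omega
      have b2 : W₁ < W := by omega
      have b3 : W ≤ 2 * W₁ := by omega
      have b4 : 2 * W₁ ≤ W + 1 := by omega
      have c1 : W * β ≤ 2 * W₁ * β := mul_le_mul_of_nonneg_right b3 (by linarith)
      have c2 : 2 * W₁ * β ≤ (W + 1) * β := mul_le_mul_of_nonneg_right b4 (by linarith)
      have c3 : 2 * β ≤ (W - 1) * β := mul_le_mul_of_nonneg_right (by linarith) (by linarith)
      have c4 : (W - 1) * β = W * β - β := by ring
      have c5 : (W + 1) * β = W * β + β := by ring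
      obtain ⟨K, hK, hQ⟩ := ih (n - 1) (by omega) W₁ (2 * β) b1 (by omega) (by linarith)
        (by linarith)
      refine ⟨K, hK, ?_⟩
      -- the step
      obtain ⟨hS, hhS⟩ : ∃ hS, hS = lam - 2 * W * β - 2 * W₁ * β := ⟨_, rfl⟩
      have d1 : lam - 40 * |mu| ≤ hS := by rw [hhS]; linarith
      have hS0 : 0 < hS := by linarith
      have hβ0 : 0 < β := by linarith
      have m1 := Int.emod_nonneg mu hβ0.ne'
      have m2 := Int.emod_lt_of_pos mu hβ0
      have m3 := Int.mul_ediv_add_emod mu β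
      generalize mu / β = q at m3
      generalize mu % β = ρ at m1 m2 m3
      have s1 := Int.emod_nonneg (-X - W * mu) hS0.ne'
      have s2 := Int.emod_lt_of_pos (-X - W * mu) hS0
      have s3 := Int.mul_ediv_add_emod (-X - W * mu) hS
      generalize (-X - W * mu) / hS = q₂ at s3
      generalize (-X - W * mu) % hS = ρ₂ at s1 s2 s3
      -- bounds for `q`
      have p1 : β * (4 * q) ≤ β * W := by
        have : β * (4 * q) = 4 * (β * q) := by ring
        rw [this, mul_comm β W]; linarith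
      have p2 : 4 * q ≤ W := le_of_mul_le_mul_left p1 hβ0
      have p3 : β * (-W) < β * (4 * (q + 1)) := by
        have e : β * (4 * (q + 1)) = 4 * (β * q) + 4 * β := by ring
        have e' : β * (-W) = -(W * β) := by ring
        rw [e, e']; linarith
      have p4 : -W < 4 * (q + 1) := lt_of_mul_lt_mul_left p3 hβ0.le
      -- bounds for `q₂`
      have w1 : W * |mu| ≤ 2 * W₁ * |mu| := mul_le_mul_of_nonneg_right b3 (by linarith)
      have w2 : |W * mu| = W * |mu| := by rw [abs_mul, abs_of_nonneg (by linarith : (0:ℤ) ≤ W)]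
      have w3 := le_abs_self (W * mu)
      have w4 := neg_le_abs (W * mu)
      rw [w2] at w3 w4
      have w5 : W₁ * (lam - 40 * |mu|) ≤ W₁ * hS := mul_le_mul_of_nonneg_left d1 (by linarith)
      have w6 : 2 * (lam - 42 * |mu|) ≤ W₁ * (lam - 42 * |mu|) :=
        mul_le_mul_of_nonneg_right b1 (by linarith)
      have w7 : W₁ * (lam - 42 * |mu|) = W₁ * (lam - 40 * |mu|) - 2 * W₁ * |mu| := by ring
      have w8 : |X| + 2 * W₁ * |mu| < W₁ * hS := by linarith
      have r1 : hS * q₂ < hS * W₁ := by linarith [mul_comm hS W₁]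
      have r2 : q₂ < W₁ := lt_of_mul_lt_mul_left r1 hS0.le
      have r3 : hS * (-W₁) < hS * (q₂ + 1) := by
        have e : hS * (q₂ + 1) = hS * q₂ + hS := by ring
        have e' : hS * (-W₁) = -(W₁ * hS) := by ring
        rw [e, e']; linarith
      have r4 : -W₁ < q₂ + 1 := lt_of_mul_lt_mul_left r3 hS0.le
      have hst := MM_step (lam := lam) (mu := mu) (X := X) (W := W₁) (W' := W) (β := 2 * β)
        (β' := β) (q := q) (ρ := ρ) (hS := hS) (q₂ := q₂) (ρ₂ := ρ₂) b2.le hβ0.le (by linarith)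
        m3.symm m1 m2.le (by rw [hhS]; ring) (by linarith) s1 s2.le (by omega) (by omega)
        (by omega) (by omega)
      exact hst.symm.trans hQ

end Pool.Agent.Run7.h686.SS
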