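import Pool.Agent.Run7.h686.SS.Rel
import Pool.Agent.Y321.SEP.TransP

/-!
# Normal forms, and the similarity theorem for both signs of the determinant
-/

set_option autoImplicit false

namespace Pool.Agent.Run7.h686.SS

open Matrix Pool.Agent.TH441.SSE2 Pool.Agent.Y321.SE2

/-- The triangular normal form. -/
def TT (lam mu X : ℤ) : Matrix (Fin 2) (Fin 2) ℤ := !![lam, -X; 0, mu]

lemma exists_TT {A : Matrix (Fin 2) (Fin 2) ℤ} {lam mu : ℤ} (hT : A.trace = lam + mu)
    (hD : A.det = lam * mu) (hc : A 1 0 ≠ 0) : ∃ X, Sim A (TT lam mu X) := by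
  rw [Matrix.trace_fin_two] at hT
  rw [Matrix.det_fin_two] at hD
  have hAeta := Matrix.eta_fin_two A
  generalize A 0 0 = a at *
  generalize A 0 1 = b at *
  generalize A 1 0 = c at *
  generalize A 1 1 = d at *
  have hg : 0 < Int.gcd c (mu - a) := Int.gcd_pos_of_ne_zero_left _ hc
  obtain ⟨c', d', hcop, h1, h2⟩ := Int.exists_gcd_one hg
  generalize hgg : ((Int.gcd c (mu - a) : ℕ) : ℤ) = g at h1 h2
  have hg0 : g ≠ 0 := by
    rw [← hgg]
    exact_mod_cast hg.ne'
  obtain ⟨u, w, huw⟩ := Int.isCoprime_iff_gcd_eq_one.mpr hcop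
  have k1 : c' * a + d' * c = mu * c' := by
    apply mul_right_cancel₀ hg0
    linear_combination (-a + mu) * h1 - c * h2
  have k2 : c' * b + d' * d = mu * d' := by
    apply mul_right_cancel₀ hg0
    linear_combination (-b) * h1 + (-d + mu) * h2 - hD + mu * hT
  refine ⟨-u * (w * a - u * c) - w * (w * b - u * d), !![w, -u; c', d'], ?_, ?_⟩
  · rw [Matrix.det_fin_two_of]
    have : w * d' - -u * c' = 1 := by linarith
    rw [this]
    exact isUnit_one
  · rw [hAeta]
    have huw' : w * d' + u * c' = 1 := by linarith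
    have hE : (w * a - u * c) * d' - (w * b - u * d) * c' = lam := by
      linear_combination (-u) * k1 + (-w) * k2 + (a + d - mu) * huw' + hT
    ext i j
    fin_cases i <;> fin_cases j
    · simp [TT, Matrix.mul_apply, Fin.sum_univ_two]
      linear_combination w * hE - (w * a - u * c) * huw'
    · simp [TT, Matrix.mul_apply, Fin.sum_univ_two]
      linear_combination (-u) * hE - (w * b - u * d) * huw'
    · simp [TT, Matrix.mul_apply, Fin.sum_univ_two]
      linarith
    · simp [TT, Matrix.mul_apply, Fin.sum_univ_two]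
      linarith

lemma TT_shift (lam mu X j : ℤ) : Sim (TT lam mu X) (TT lam mu (X + j * (lam - mu))) := by
  refine ⟨!![1, j; 0, 1], by simp, ?_⟩
  ext i k; fin_cases i <;> fin_cases k <;> simp [TT, Matrix.mul_apply, Fin.sum_univ_two]
  ring

lemma TT_neg (lam mu X : ℤ) : Sim (TT lam mu X) (TT lam mu (-X)) := by
  refine ⟨!![1, 0; 0, -1], by simp, ?_⟩
  ext i k; fin_cases i <;> fin_cases k <;> simp [TT, Matrix.mul_apply, Fin.sum_univ_two]

/-- `A` has off-diagonal entries at least one and no negative entry. -/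
def Pos (A : Matrix (Fin 2) (Fin 2) ℤ) : Prop := NN A ∧ 1 ≤ A 0 1 ∧ 1 ≤ A 1 0

lemma TT_ne_zero {A : Matrix (Fin 2) (Fin 2) ℤ} {lam mu : ℤ} (hA : Pos A)
    (h : Sim A (TT lam mu 0)) : False := by
  obtain ⟨U, hU, hUA⟩ := h
  obtain ⟨-, hb, hc⟩ := hA
  have k00 := congrFun (congrFun hUA 0) 0
  have k01 := congrFun (congrFun hUA 0) 1
  have k10 := congrFun (congrFun hUA 1) 0
  have k11 := congrFun (congrFun hUA 1) 1
  simp [TT, Matrix.mul_apply, Fin.sum_univ_two] at k00 k01 k10 k11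
  have hdet := Int.isUnit_iff.mp hU
  rw [Matrix.det_fin_two] at hdet
  generalize A 0 0 = a at *
  generalize A 0 1 = b at *
  generalize A 1 0 = c at *
  generalize A 1 1 = d at *
  generalize U 0 0 = p at *
  generalize U 0 1 = q at *
  generalize U 1 0 = r at *
  generalize U 1 1 = s at *
  have e1 : b * (p * s - q * r) = q * s * (lam - mu) := by
    linear_combination s * k01 - q * k11
  have e2 : c * (p * s - q * r) = -(p * r * (lam - mu)) := by
    linear_combination p * k10 - r * k00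
  have e3 : b * c * ((p * s - q * r) * (p * s - q * r)) =
      -((p * s) * (q * r)) * ((lam - mu) * (lam - mu)) := by
    linear_combination (c * (p * s - q * r)) * e1 + (q * s * (lam - mu)) * e2
  have e4 : (p * s - q * r) * (p * s - q * r) = 1 := by
    rcases hdet with h | h <;> rw [h] <;> norm_num
  rw [e4, mul_one] at e3
  have e5 : 0 ≤ (p * s) * (q * r) := by
    rcases hdet with h | h
    · have h6 : p * s = q * r + 1 := by linarith
      rw [h6]
      rcases le_or_gt 0 (q * r) with h7 | h7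
      · exact mul_nonneg (by linarith) h7
      · exact mul_nonneg_of_nonpos_of_nonpos (by omega) h7.le
    · have h6 : p * s = q * r - 1 := by linarith
      rw [h6]
      rcases le_or_gt (q * r) 0 with h7 | h7
      · exact mul_nonneg_of_nonpos_of_nonpos (by omega) h7
      · exact mul_nonneg (by omega) h7.le
  have e6 := mul_nonneg e5 (mul_self_nonneg (lam - mu))
  have e7 : 1 ≤ b * c := by nlinarith
  linarith

lemma exists_TT_red {A : Matrix (Fin 2) (Fin 2) ℤ} {lam mu : ℤ} (hA : Pos A)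
    (hN : 0 < lam - mu) (hT : A.trace = lam + mu) (hD : A.det = lam * mu) :
    ∃ X, 1 ≤ X ∧ 2 * X ≤ lam - mu ∧ Sim A (TT lam mu X) := by
  obtain ⟨X, hX⟩ := exists_TT hT hD (by linarith [hA.2.2])
  obtain ⟨X0, ⟨j, hj⟩, h2⟩ := exists_bal hN X
  have h3 : Sim A (TT lam mu X0) := by
    have h4 := hX.trans (TT_shift lam mu X j)
    have e : X + j * (lam - mu) = X0 := by linarith
    rwa [e] at h4
  have h5 : X0 ≠ 0 := by
    rintro rfl
    exact TT_ne_zero hA h3
  rcases lt_or_gt_of_ne h5 with h6 | h6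
  · refine ⟨-X0, by omega, ?_, h3.trans (TT_neg lam mu X0)⟩
    rw [abs_of_neg h6] at h2
    exact h2
  · refine ⟨X0, by omega, ?_, h3⟩
    rw [abs_of_pos h6] at h2
    exact h2

/-- Similar matrices with both signs of the determinant. -/
lemma sim_both {A A'' : Matrix (Fin 2) (Fin 2) ℤ} (hA : Pos A) (hA'' : Pos A'')
    (hs : Sim A'' A) (hT0 : 0 < A.trace) (hD0 : A.det ≠ 0)
    (hTD : 500 * |A.det| ≤ A.trace ^ 2) : Q A A'' := by
  rcases lt_or_gt_of_ne hD0 with hD | hD
  · rw [abs_of_neg hD] at hTD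
    exact sim_Q hA.1 hA''.1 hs rfl (show A.det = -(-A.det) by ring) hT0 (by linarith) (by linarith)
  · rw [abs_of_pos hD] at hTD
    obtain ⟨T, hT⟩ : ∃ T, A.trace = T := ⟨_, rfl⟩
    obtain ⟨D, hDD⟩ : ∃ D, A.det = -D := ⟨-A.det, by ring⟩
    rw [hT] at hT0 hTD
    rw [hDD] at hTD hD
    obtain ⟨U, hU, hUA⟩ := hs
    obtain ⟨i1, i2⟩ := inv_entries hU hUA.symm hT hDD
    obtain ⟨-, p1, p2⟩ := hA
    obtain ⟨hA''nn, p3, p4⟩ := hA''
    rw [Matrix.trace_fin_two] at hT
    rw [Matrix.det_fin_two] at hDD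
    have hAeta := Matrix.eta_fin_two A
    have hA''eta := Matrix.eta_fin_two A''
    have hUeta := Matrix.eta_fin_two U
    have hUdet : U 0 0 * U 1 1 - U 0 1 * U 1 0 = 1 ∨ U 0 0 * U 1 1 - U 0 1 * U 1 0 = -1 := by
      rw [← Matrix.det_fin_two]
      exact Int.isUnit_iff.mp hU
    rcases hUdet with h1 | h1
    · have h := river_one T (-D) hT0 (by linarith) (by linarith) (A 0 0) (A 0 1) (A 1 0) (A 1 1)
        (U 0 0) (U 0 1) (U 1 0) (U 1 1) (A'' 0 0) (A'' 0 1) (A'' 1 0) (A'' 1 1) p1 p2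
        hT.symm (by linarith) i1 (by linarith) h1 p3 p4
        (by rw [← hAeta, ← hUeta, ← hA''eta]; exact hUA.symm)
      rw [← hAeta, ← hA''eta] at h
      exact h
    · have h2 : !![A 0 0, A 0 1; A 1 0, A 1 1] * !![U 0 1, U 0 0; U 1 1, U 1 0] =
          !![U 0 1, U 0 0; U 1 1, U 1 0] * !![A'' 1 1, A'' 1 0; A'' 0 1, A'' 0 0] := by
        have k00 := congrFun (congrFun hUA 0) 0
        have k01 := congrFun (congrFun hUA 0) 1
        have k10 := congrFun (congrFun hUA 1) 0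
        have k11 := congrFun (congrFun hUA 1) 1
        simp only [Matrix.mul_apply, Fin.sum_univ_two] at k00 k01 k10 k11
        ext i j; fin_cases i <;> fin_cases j <;>
          simp [Matrix.mul_apply, Fin.sum_univ_two] <;> linarith
      have h := river_one T (-D) hT0 (by linarith) (by linarith) (A 0 0) (A 0 1) (A 1 0) (A 1 1)
        (U 0 1) (U 0 0) (U 1 1) (U 1 0) (A'' 1 1) (A'' 1 0) (A'' 0 1) (A'' 0 0) p1 p2
        hT.symm (by linarith) (by linarith) (by linarith) (by linarith) p4 p3 h2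
      rw [← hAeta] at h
      have h3 := Q.swap (A'' 0 0) (A'' 0 1) (A'' 1 0) (A'' 1 1) (hA''nn 0 0) (hA''nn 0 1)
        (hA''nn 1 0) (hA''nn 1 1)
      rw [← hA''eta] at h3
      exact h.trans h3.symm

lemma TT_pow (lam mu X : ℤ) (l : ℕ) : (TT lam mu X ^ l) 0 0 = lam ^ l ∧
    (TT lam mu X ^ l) 1 0 = 0 ∧ (TT lam mu X ^ l) 1 1 = mu ^ l := by
  induction l with
  | zero => simp
  | succ l ih =>
    obtain ⟨h1, h2, h3⟩ := ih
    rw [pow_succ]
    simp [Matrix.mul_apply, Fin.sum_univ_two, TT, h1, h2, h3, pow_succ] at *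

lemma TT_lower {lam mu X Y : ℤ} (hN : 0 < lam - mu) {R : Matrix (Fin 2) (Fin 2) ℤ}
    (h : TT lam mu X * R = R * TT lam mu Y) :
    R 1 0 = 0 ∧ (lam - mu) ∣ R 1 1 * X - R 0 0 * Y := by
  have k10 := congrFun (congrFun h 1) 0
  have k01 := congrFun (congrFun h 0) 1
  simp [TT, Matrix.mul_apply, Fin.sum_univ_two] at k10 k01
  have h0 : R 1 0 = 0 := by
    have : (lam - mu) * R 1 0 = 0 := by linarith
    rcases mul_eq_zero.mp this with h | h
    · exact absurd h hN.ne'
    · exact h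
  exact ⟨h0, ⟨R 0 1, by linarith⟩⟩

/-- Shift equivalence over `ℤ` of the normal forms. -/
lemma RR_of_SE {A B R S : Matrix (Fin 2) (Fin 2) ℤ} {lam mu X Y : ℤ} (H : Hyp lam mu) (l : ℕ)
    (e1 : A ^ l = R * S) (e3 : A * R = R * B) (e4 : S * A = B * S)
    (hA : Sim A (TT lam mu X)) (hB : Sim B (TT lam mu Y)) : RR lam mu X Y := by
  obtain ⟨U, hU, hUA⟩ := hA
  obtain ⟨V, hV, hVB⟩ := hB
  have u1 : U⁻¹ * U = 1 := Matrix.nonsing_inv_mul U hU
  have u2 : U * U⁻¹ = 1 := Matrix.mul_nonsing_inv U hU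
  have v1 : V⁻¹ * V = 1 := Matrix.nonsing_inv_mul V hV
  have v2 : V * V⁻¹ = 1 := Matrix.mul_nonsing_inv V hV
  have hVB' : B * V⁻¹ = V⁻¹ * TT lam mu Y := by
    calc B * V⁻¹ = V⁻¹ * (V * B) * V⁻¹ := by
          rw [← Matrix.mul_assoc V⁻¹, v1, Matrix.one_mul]
      _ = V⁻¹ * TT lam mu Y * (V * V⁻¹) := by rw [hVB]; simp only [Matrix.mul_assoc]
      _ = V⁻¹ * TT lam mu Y := by rw [v2, Matrix.mul_one]
  have hUA' : A * U⁻¹ = U⁻¹ * TT lam mu X := by
    calc A * U⁻¹ = U⁻¹ * (U * A) * U⁻¹ := by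
          rw [← Matrix.mul_assoc U⁻¹, u1, Matrix.one_mul]
      _ = U⁻¹ * TT lam mu X * (U * U⁻¹) := by rw [hUA]; simp only [Matrix.mul_assoc]
      _ = U⁻¹ * TT lam mu X := by rw [u2, Matrix.mul_one]
  have f1 : TT lam mu X * (U * R * V⁻¹) = (U * R * V⁻¹) * TT lam mu Y := by
    calc TT lam mu X * (U * R * V⁻¹) = (TT lam mu X * U) * R * V⁻¹ := by
          simp only [Matrix.mul_assoc]
      _ = U * (A * R) * V⁻¹ := by rw [← hUA]; simp only [Matrix.mul_assoc]
      _ = U * R * (B * V⁻¹) := by rw [e3]; simp only [Matrix.mul_assoc]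
      _ = (U * R * V⁻¹) * TT lam mu Y := by rw [hVB']; simp only [Matrix.mul_assoc]
  have f2 : TT lam mu Y * (V * S * U⁻¹) = (V * S * U⁻¹) * TT lam mu X := by
    calc TT lam mu Y * (V * S * U⁻¹) = (TT lam mu Y * V) * S * U⁻¹ := by
          simp only [Matrix.mul_assoc]
      _ = V * (B * S) * U⁻¹ := by rw [← hVB]; simp only [Matrix.mul_assoc]
      _ = V * S * (A * U⁻¹) := by rw [← e4]; simp only [Matrix.mul_assoc]
      _ = (V * S * U⁻¹) * TT lam mu X := by rw [hUA']; simp only [Matrix.mul_assoc]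
  have f3 : (U * R * V⁻¹) * (V * S * U⁻¹) = TT lam mu X ^ l := by
    calc (U * R * V⁻¹) * (V * S * U⁻¹) = U * R * (V⁻¹ * V) * S * U⁻¹ := by
          simp only [Matrix.mul_assoc]
      _ = U * A ^ l * U⁻¹ := by rw [v1, Matrix.mul_one, e1]; simp only [Matrix.mul_assoc]
      _ = U * (U⁻¹ * TT lam mu X ^ l) := by
          rw [Matrix.mul_assoc, pow_intertwine hUA' l]
      _ = TT lam mu X ^ l := by rw [← Matrix.mul_assoc, u2, Matrix.one_mul]
  obtain ⟨g1, g2⟩ := TT_lower H.pos f1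
  obtain ⟨g3, -⟩ := TT_lower H.pos f2
  obtain ⟨t1, -, t2⟩ := TT_pow lam mu X l
  rw [← f3, Matrix.mul_apply, Fin.sum_univ_two, g3, mul_zero, add_zero] at t1
  rw [← f3, Matrix.mul_apply, Fin.sum_univ_two, g1, zero_mul, zero_add] at t2
  have r1 := RR_pow_mu H _ _ l t2 X
  have r2 := RR_pow_lam H _ _ l t1 Y
  exact (r1.trans H (RR_of_dvd H g2)).trans H r2.symm

end Pool.Agent.Run7.h686.SS
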