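import Pool.Agent.Run7.h686.SS.Lam2
import Pool.Agent.Run7.h686.SS.Norm

/-!
# The full range `500 |det| ≤ tr²` for integer eigenvalues
-/

set_option autoImplicit false

namespace Pool.Agent.Run7.h686.SS.T

open Matrix Pool.Agent.TH441.SSE2 Pool.Agent.Run7.h686.SS Pool.Agent.Y321.SE2

lemma mu_ne {lam mu : ℤ} (H : Hyp2 lam mu) : mu ≠ 0 := by
  rintro rfl
  have := H.1
  norm_num at this

lemma RR_prime_mu {lam mu : ℤ} (H : Hyp2 lam mu) (p : ℕ) (hp : p.Prime) (hd : (p : ℤ) ∣ mu)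
    (X : ℤ) : RR lam mu X (p * X) := by
  obtain ⟨mu', hmu'⟩ := hd
  exact RR_mu H (by exact_mod_cast hp.two_le) hmu' X

lemma RR_prime_lam {lam mu : ℤ} (H : Hyp2 lam mu) (p : ℕ) (hp : p.Prime) (hd : (p : ℤ) ∣ lam)
    (X : ℤ) : RR lam mu X (p * X) := by
  obtain ⟨l, hl⟩ := hd
  have hp2 : (2 : ℤ) ≤ p := by exact_mod_cast hp.two_le
  have hm0 := abs_nonneg mu
  have hm1 := H.1
  have hlin := H.2
  have hlam0 : 0 < lam := by linarith
  have hl0 : 0 < l := by
    by_contra hneg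
    push Not at hneg
    nlinarith
  by_cases h8 : 8 * |mu| ≤ l
  · exact RR_lam H hp2 hl h8 X
  · push Not at h8
    by_cases h10 : 10 ≤ l
    · exact RR_lam2 H hl h10 h8.le X
    · push Not at h10
      have hp8 : 8 * |mu| ≤ (p : ℤ) := by
        by_contra hneg
        push Not at hneg
        have : (p : ℤ) * l ≤ p * 10 := mul_le_mul_of_nonneg_left h10.le (by linarith)
        linarith
      have h1 : RR lam mu (p * X) (l * (p * X)) := by
        by_cases hl1 : l = 1
        · rw [hl1, one_mul]; exact RR_refl H _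
        · exact RR_lam H (by omega) (by rw [hl]; ring) hp8 (p * X)
      have h2 : RR lam mu X (mu * X) :=
        RR_int H mu (mu_ne H) (fun p hp hd => RR_prime_mu H p hp hd) X
      have h3 : RR lam mu (mu * X) (l * (p * X)) := RR_of_dvd H ⟨-X, by rw [hl]; ring⟩
      exact RR_trans H (RR_trans H h2 h3) h1.symm

lemma RR_pow_mu {lam mu : ℤ} (H : Hyp2 lam mu) (t s : ℤ) (l : ℕ) (ht : t * s = mu ^ l) (X : ℤ) :
    RR lam mu X (t * X) := by
  have h0 : t ≠ 0 := by
    rintro rfl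
    rw [zero_mul] at ht
    exact pow_ne_zero l (mu_ne H) ht.symm
  refine RR_int H t h0 (fun p hp hd => RR_prime_mu H p hp ?_) X
  have h1 : (p : ℤ) ∣ mu ^ l := by rw [← ht]; exact dvd_mul_of_dvd_left hd s
  exact (Nat.prime_iff_prime_int.mp hp).dvd_of_dvd_pow h1

lemma RR_pow_lam {lam mu : ℤ} (H : Hyp2 lam mu) (t s : ℤ) (l : ℕ) (ht : t * s = lam ^ l) (X : ℤ) :
    RR lam mu X (t * X) := by
  have hlin := H.2
  have hm1 := H.1
  have h0 : t ≠ 0 := by
    rintro rfl
    rw [zero_mul] at ht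
    exact pow_ne_zero l (by linarith : lam ≠ 0) ht.symm
  refine RR_int H t h0 (fun p hp hd => RR_prime_lam H p hp ?_) X
  have h1 : (p : ℤ) ∣ lam ^ l := by rw [← ht]; exact dvd_mul_of_dvd_left hd s
  exact (Nat.prime_iff_prime_int.mp hp).dvd_of_dvd_pow h1

/-- Shift equivalence over `ℤ` of the normal forms. -/
lemma RR_of_SE {A B R S : Matrix (Fin 2) (Fin 2) ℤ} {lam mu X Y : ℤ} (H : Hyp2 lam mu) (l : ℕ)
    (e1 : A ^ l = R * S) (e3 : A * R = R * B) (e4 : S * A = B * S)
    (hA : Sim A (TT lam mu X)) (hB : Sim B (TT lam mu Y)) : RR lam mu X Y := by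
  obtain ⟨U, hU, hUA⟩ := hA
  obtain ⟨V, hV, hVB⟩ := hB
  have u1 : U⁻¹ * U = 1 := Matrix.nonsing_inv_mul U hU
  have u2 : U * U⁻¹ = 1 := Matrix.mul_nonsing_inv U hU
  have v1 : V⁻¹ * V = 1 := Matrix.nonsing_inv_mul V hV
  have v2 : V * V⁻¹ = 1 := Matrix.mul_nonsing_inv V hV
  have hVB' : B * V⁻¹ = V⁻¹ * TT lam mu Y := by
    calc B * V⁻¹ = V⁻¹ * (V * B) * V⁻¹ := by
          rw [← Matrix.mul_assoc V⁻¹, v1, Matrix.one_mul]
      _ = V⁻¹ * TT lam mu Y * (V * V⁻¹) := by rw [hVB]; simp only [Matrix.mul_assoc]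
      _ = V⁻¹ * TT lam mu Y := by rw [v2, Matrix.mul_one]
  have hUA' : A * U⁻¹ = U⁻¹ * TT lam mu X := by
    calc A * U⁻¹ = U⁻¹ * (U * A) * U⁻¹ := by
          rw [← Matrix.mul_assoc U⁻¹, u1, Matrix.one_mul]
      _ = U⁻¹ * TT lam mu X * (U * U⁻¹) := by rw [hUA]; simp only [Matrix.mul_assoc]
      _ = U⁻¹ * TT lam mu X := by rw [u2, Matrix.mul_one]
  have f1 : TT lam mu X * (U * R * V⁻¹) = (U * R * V⁻¹) * TT lam mu Y := by
    calc TT lam mu X * (U * R * V⁻¹) = (TT lam mu X * U) * R * V⁻¹ := by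
          simp only [Matrix.mul_assoc]
      _ = U * (A * R) * V⁻¹ := by rw [← hUA]; simp only [Matrix.mul_assoc]
      _ = U * R * (B * V⁻¹) := by rw [e3]; simp only [Matrix.mul_assoc]
      _ = (U * R * V⁻¹) * TT lam mu Y := by rw [hVB']; simp only [Matrix.mul_assoc]
  have f2 : TT lam mu Y * (V * S * U⁻¹) = (V * S * U⁻¹) * TT lam mu X := by
    calc TT lam mu Y * (V * S * U⁻¹) = (TT lam mu Y * V) * S * U⁻¹ := by
          simp only [Matrix.mul_assoc]
      _ = V * (B * S) * U⁻¹ := by rw [← hVB]; simp only [Matrix.mul_assoc]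
      _ = V * S * (A * U⁻¹) := by rw [← e4]; simp only [Matrix.mul_assoc]
      _ = (V * S * U⁻¹) * TT lam mu X := by rw [hUA']; simp only [Matrix.mul_assoc]
  have f3 : (U * R * V⁻¹) * (V * S * U⁻¹) = TT lam mu X ^ l := by
    calc (U * R * V⁻¹) * (V * S * U⁻¹) = U * R * (V⁻¹ * V) * S * U⁻¹ := by
          simp only [Matrix.mul_assoc]
      _ = U * A ^ l * U⁻¹ := by rw [v1, Matrix.mul_one, e1]; simp only [Matrix.mul_assoc]
      _ = U * (U⁻¹ * TT lam mu X ^ l) := by
          rw [Matrix.mul_assoc, pow_intertwine hUA' l]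
      _ = TT lam mu X ^ l := by rw [← Matrix.mul_assoc, u2, Matrix.one_mul]
  obtain ⟨g1, g2⟩ := TT_lower (pos H) f1
  obtain ⟨g3, -⟩ := TT_lower (pos H) f2
  obtain ⟨t1, -, t2⟩ := TT_pow lam mu X l
  rw [← f3, Matrix.mul_apply, Fin.sum_univ_two, g3, mul_zero, add_zero] at t1
  rw [← f3, Matrix.mul_apply, Fin.sum_univ_two, g1, zero_mul, zero_add] at t2
  have r1 := RR_pow_mu H _ _ l t2 X
  have r2 := RR_pow_lam H _ _ l t1 Y
  exact RR_trans H (RR_trans H r1 (RR_of_dvd H g2)) r2.symm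


lemma exists_k2 {m X : ℤ} (hm : 1 ≤ m) (hX : 1 ≤ X) :
    ∃ k, 1 ≤ k ∧ m ≤ k * X ∧ k * X ≤ m + X - 1 ∧ k ≤ m := by
  obtain ⟨k, h1, h2⟩ := exists_ceil (m := m) hX
  have hX0 : 0 < X := by linarith
  have e : X * k = k * X := mul_comm _ _
  have h5 : 1 ≤ k := by
    by_contra hneg
    push Not at hneg
    have : k * X ≤ 0 * X := mul_le_mul_of_nonneg_right (by linarith) hX0.le
    linarith
  refine ⟨k, h5, by linarith, by linarith, ?_⟩
  have h6 : k * X ≤ m * X := by nlinarith [mul_nonneg (sub_nonneg.mpr hm) (sub_nonneg.mpr hX)]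
  exact le_of_mul_le_mul_right h6 hX0

/-- Every positive matrix is connected to a presentation of its normal form. -/
lemma Q_C {A : Matrix (Fin 2) (Fin 2) ℤ} {lam mu X : ℤ} (H : Hyp2 lam mu) (hA : Pos A)
    (hT : A.trace = lam + mu) (hD : A.det = lam * mu)
    (h500 : 500 * |lam * mu| ≤ (lam + mu) ^ 2) (hX : 1 ≤ X) (hX2 : 2 * X ≤ lam - mu)
    (hs : Sim A (TT lam mu X)) : Q A (C lam mu X |mu|) ∧ Good lam mu X |mu| := by
  have hm1 := H.1
  have hlin := H.2
  have e1 := le_abs_self mu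
  have e2 := neg_le_abs mu
  obtain ⟨k, k1, k2, k3, k4⟩ := exists_k2 hm1 hX
  have hk0 : 0 < k := by linarith
  have hpos : 1 ≤ lam - k * X - mu := by linarith
  have hTk : Pos !![lam - k * X, X; k * (lam - k * X - mu), k * X + mu] := by
    refine ⟨?_, ?_, ?_⟩
    · intro i j
      fin_cases i <;> fin_cases j
      · simp; linarith
      · simp; linarith
      · simpa using mul_nonneg hk0.le (by linarith : (0:ℤ) ≤ lam - k * X - mu)
      · simp; linarith
    · simpa using hX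
    · have : 1 * 1 ≤ k * (lam - k * X - mu) := mul_le_mul k1 hpos (by norm_num) hk0.le
      simpa using this
  have hsk : Sim (TT lam mu X) !![lam - k * X, X; k * (lam - k * X - mu), k * X + mu] := by
    refine ⟨!![1, 0; k, -1], by simp, ?_⟩
    ext i j; fin_cases i <;> fin_cases j <;>
      simp [TT, Matrix.mul_apply, Fin.sum_univ_two] <;> ring
  have hlam : 0 < lam := by linarith
  have hmu0 := mu_ne H
  have hQ1 := sim_both hA hTk (hs.trans hsk).symm (by rw [hT]; linarith)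
    (by rw [hD]; exact mul_ne_zero hlam.ne' hmu0) (by rw [hT, hD]; exact h500)
  obtain ⟨K, hK1, hK2⟩ := exists_ceil (m := |mu|) k1
  have hK0 : 0 ≤ K := by
    by_contra hneg
    push Not at hneg
    have : k * K ≤ k * 0 := mul_le_mul_of_nonneg_left hneg.le hk0.le
    linarith
  have hEG : EG lam mu X k K := by
    refine ⟨k1, hK1, hK0, ?_⟩
    have : k * (X + 2 * K) = k * X + 2 * (k * K) := by ring
    linarith
  have hQ2 := move_two' (lam := lam) (mu := mu) (X := X) (k := k) (by linarith) k2 hEG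
  have hQ3 := E_all H hX hX2 k.toNat k K (Int.self_le_toNat _) (by
    have : (k - 1) * X = k * X - X := by ring
    linarith) k4 hEG
  exact ⟨(hQ1.trans hQ2).trans hQ3, le_rfl, by linarith, by linarith⟩

/-- Shift equivalence over `ℤ` implies a chain over the nonnegative integers. -/
theorem Q_main {A B R S : Matrix (Fin 2) (Fin 2) ℤ} {lam mu : ℤ} (H : Hyp2 lam mu) (hA : Pos A)
    (hB : Pos B) (hT : A.trace = lam + mu) (hD : A.det = lam * mu)
    (h500 : 500 * |lam * mu| ≤ (lam + mu) ^ 2) (l : ℕ)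
    (e1 : A ^ l = R * S) (e3 : A * R = R * B) (e4 : S * A = B * S) : Q A B := by
  have hlin := H.2
  have hm1 := H.1
  have hlam : 0 < lam := by linarith
  have hmu0 := mu_ne H
  have hdetR : R.det ≠ 0 := by
    intro h
    have h1 := congrArg Matrix.det e1
    rw [Matrix.det_mul, h, zero_mul, Matrix.det_pow, hD] at h1
    exact pow_ne_zero l (mul_ne_zero hlam.ne' hmu0) h1
  have hDB : B.det = lam * mu := by
    have h1 := congrArg Matrix.det e3
    rw [Matrix.det_mul, Matrix.det_mul, hD, mul_comm] at h1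
    exact (mul_left_cancel₀ hdetR h1).symm
  have hTB : B.trace = lam + mu := by
    have h1 : R.adjugate * A * R = R.det • B := by
      rw [Matrix.mul_assoc, e3, ← Matrix.mul_assoc, Matrix.adjugate_mul, Matrix.smul_mul,
        Matrix.one_mul]
    have h2 := congrArg Matrix.trace h1
    rw [Matrix.trace_mul_cycle, Matrix.mul_adjugate, Matrix.smul_mul, Matrix.one_mul,
      Matrix.trace_smul, Matrix.trace_smul, hT, smul_eq_mul, smul_eq_mul] at h2
    exact (mul_left_cancel₀ hdetR h2).symm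
  obtain ⟨X, hX1, hX2, hX3⟩ := exists_TT_red hA (pos H) hT hD
  obtain ⟨Y, hY1, hY2, hY3⟩ := exists_TT_red hB (pos H) hTB hDB
  have hRR := RR_of_SE H l e1 e3 e4 hX3 hY3
  have hRl := hRR X Y (by simp) (by simp) (by rw [abs_of_pos (by linarith)]; exact hX2)
    (by rw [abs_of_pos (by linarith)]; exact hY2)
  obtain ⟨q1, g1⟩ := Q_C H hA hT hD h500 hX1 hX2 hX3
  obtain ⟨q2, g2⟩ := Q_C H hB hTB hDB h500 hY1 hY2 hY3
  exact (q1.trans (hRl.toQ g1 g2)).trans q2.symm

/-- From the inequality on the determinant to the standing hypotheses. -/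
lemma hyp_of {lam mu : ℤ} (hmu : mu ≠ 0) (hle : |mu| ≤ lam)
    (h500 : 500 * |lam * mu| ≤ (lam + mu) ^ 2) : Hyp2 lam mu := by
  have hm1 : 1 ≤ |mu| := Int.one_le_abs hmu
  refine ⟨hm1, ?_⟩
  by_contra hneg
  push Not at hneg
  have hlam : 0 < lam := by linarith
  rw [abs_mul, abs_of_pos hlam] at h500
  have e1 := le_abs_self mu
  have h1 : (lam + mu) ^ 2 ≤ (lam + |mu|) ^ 2 := by
    have e2 := neg_le_abs mu
    apply sq_le_sq'
    · linarith
    · linarith
  have h2 : lam * lam ≤ lam * (400 * |mu|) := mul_le_mul_of_nonneg_left hneg.le hlam.le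
  have h3 : |mu| * |mu| ≤ lam * |mu| := mul_le_mul_of_nonneg_right hle (by linarith)
  have h4 : 0 < lam * |mu| := mul_pos hlam (by linarith)
  nlinarith

end Pool.Agent.Run7.h686.SS.T
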