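import Pool.Agent.Run7.h686.SS.Rel2

/-!
# Arbitrary divisors of the small eigenvalue
-/

set_option autoImplicit false

namespace Pool.Agent.Run7.h686.SS.T

open Matrix Pool.Agent.TH441.SSE2 Pool.Agent.Run7.h686.SS

lemma move_mu2 {lam X' W p z mp mn hS q₂ ρ₂ y : ℤ} (hmp : 0 ≤ mp) (hmn : 0 ≤ mn)
    (hz : -p ≤ z) (hz' : z ≤ p) (hp : 0 ≤ p) (hW : 2 * p ≤ W)
    (hlam : lam = hS + 4 * W * (mp + mn))
    (hX : -(p * X' - z * (lam - p * (mp - mn))) - W * (p * (mp - mn)) = hS * q₂ + ρ₂)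
    (hρ₂ : 0 ≤ ρ₂) (hρ₂' : ρ₂ ≤ hS) (hq₂ : -W ≤ q₂) (hq₂' : q₂ + 1 ≤ W) (hy : 0 ≤ y)
    (hx : 0 ≤ W * (mp + mn) + y + z * (mp - mn) + X')
    (hh : 0 ≤ lam - 2 * W * (mp + mn) - (W * (mp + mn) + y + z * (mp - mn) + X') - y) :
    Q (MM lam (p * (mp - mn)) (p * X' - z * (lam - p * (mp - mn))) W (2 * (mp + mn)))
        (C lam (p * (mp - mn)) X' (W * (mp + mn) + y + z * (mp - mn))) ∧
      NN (C lam (p * (mp - mn)) X' (W * (mp + mn) + y + z * (mp - mn))) := by
  have hW0 : 0 ≤ W := by linarith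
  have g1 : 0 ≤ 2 * W * mp := mul_nonneg (by linarith) hmp
  have g2 : 0 ≤ 2 * W * mn := mul_nonneg (by linarith) hmn
  have hR1 : NN (!![mn, mp, mp, mn, 0, 0; mp, mn, mp, mn, 0, 0; 0, 0, 0, 0, hS - ρ₂, ρ₂] :
      Matrix (Fin 3) (Fin 6) ℤ) := by
    intro i j; fin_cases i <;> fin_cases j <;> simp <;> linarith
  have hU1 : NN (!![W + z, W - z, 1; W + (z + p), W - (z + p), 1; W + (-z), W - (-z), 1;
      W + (-z - p), W - (-z - p), 1; W + q₂, W - q₂, 1; W + (q₂ + 1), W - (q₂ + 1), 1] :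
      Matrix (Fin 6) (Fin 3) ℤ) := by
    intro i j; fin_cases i <;> fin_cases j <;> simp <;> linarith
  have hR2 : NN (!![mn, mp, 0, 0, 0, 0; mp, mn, 0, 0, 0, 0;
      0, 0, 2 * W * mp, 2 * W * mn, hS - ρ₂, ρ₂] : Matrix (Fin 3) (Fin 6) ℤ) := by
    intro i j; fin_cases i <;> fin_cases j <;> simp <;> linarith
  have hR3 : NN (!![0, mn, mp; 0, mp, mn; W * (mp + mn) + y + z * (mp - mn) + X',
      lam - 2 * W * (mp + mn) - (W * (mp + mn) + y + z * (mp - mn) + X') - y, y] :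
      Matrix (Fin 3) (Fin 3) ℤ) := by
    intro i j; fin_cases i <;> fin_cases j <;> simp <;> linarith
  have hU3 : NN (!![W + (z - p), W - (z - p), 1; W + z, W - z, 1;
      W + (z + p), W - (z + p), 1] : Matrix (Fin 3) (Fin 3) ℤ) := by
    intro i j; fin_cases i <;> fin_cases j <;> simp <;> linarith
  have hX2 : p * X' = z * (lam - p * (mp - mn)) - W * (p * (mp - mn)) - (hS * q₂ + ρ₂) := by
    linarith
  have e3 : C lam (p * (mp - mn)) X' (W * (mp + mn) + y + z * (mp - mn)) =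
      !![W + (z - p), W - (z - p), 1; W + z, W - z, 1;
      W + (z + p), W - (z + p), 1] * !![0, mn, mp; 0, mp, mn; W * (mp + mn) + y + z * (mp - mn) + X',
      lam - 2 * W * (mp + mn) - (W * (mp + mn) + y + z * (mp - mn) + X') - y, y] := by
    ext i j; fin_cases i <;> fin_cases j <;> simp [C, Matrix.mul_apply, Fin.sum_univ_succ] <;> ring
  refine ⟨?_, by rw [e3]; exact NN_mul hU3 hR3⟩
  refine (two_step _ _ _ _ hR1 hU1 hR2 hU1 ?_ ?_ rfl).trans (Q.of_elem _ _ hR3 hU3 ?_ e3)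
  · ext i j; fin_cases i <;> fin_cases j <;> simp [Matrix.mul_apply, Fin.sum_univ_succ] <;> ring
  · have hX3 : p * X' - z * (lam - p * (mp - mn)) = -(W * (p * (mp - mn))) - (hS * q₂ + ρ₂) := by
      linarith
    rw [hX3, hlam]
    ext i j; fin_cases i <;> fin_cases j <;> simp [MM, Matrix.mul_apply, Fin.sum_univ_succ] <;> ring
  · ext i j
    fin_cases i <;> fin_cases j <;> simp [Matrix.mul_apply, Fin.sum_univ_succ] <;>
      first
      | ring1
      | linear_combination hX2 - W * hlam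
      | linear_combination -hX2 - W * hlam
      | linear_combination -hlam

/-- Multiplication by any divisor of the small eigenvalue. -/
lemma RR_mu {lam mu p mu' : ℤ} (H : Hyp2 lam mu) (hp : 2 ≤ p) (hmu : mu = p * mu')
    (X : ℤ) : RR lam mu X (p * X) := by
  intro X0 Y0 h1 h2 h3 h4
  have hN := pos H
  have h5 : (lam - mu) ∣ p * X0 - Y0 := by
    have := dvd_sub (dvd_mul_of_dvd_right h1 p) h2
    have e : p * (X0 - X) - (Y0 - p * X) = p * X0 - Y0 := by ring
    rwa [e] at this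
  obtain ⟨z, hz⟩ := h5
  have hY0 : Y0 = p * X0 - z * (lam - mu) := by linarith
  have hzp := bal_z hN hp (z := -z) (by linarith) h3 h4
  rw [abs_neg] at hzp
  have hp0 : 0 < p := by linarith
  obtain ⟨H1, H2⟩ := H
  have e1 := neg_le_abs mu
  have e2 := le_abs_self mu
  have z1 := neg_le_abs z
  have z2 := le_abs_self z
  have x1 := neg_le_abs X0
  have x2 := le_abs_self X0
  have y1 := neg_le_abs Y0
  have y2 := le_abs_self Y0
  have hmabs : |mu| = p * |mu'| := by rw [hmu, abs_mul, abs_of_pos hp0]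
  obtain ⟨mp, mn, m1, m2, m3, m4⟩ := parts mu'
  obtain ⟨W, hW⟩ : ∃ W, W = 2 * p := ⟨_, rfl⟩
  have hWm : W * (mp + mn) = 2 * |mu| := by rw [hW, m4, hmabs]; ring
  have hzm : |z * mu'| ≤ |mu| := by
    rw [abs_mul, hmabs]
    exact mul_le_mul_of_nonneg_right (by linarith) (abs_nonneg _)
  have zm1 := neg_le_abs (z * mu')
  have zm2 := le_abs_self (z * mu')
  have hWmu : |W * mu| = W * |mu| := by rw [abs_mul, abs_of_nonneg (by linarith : (0:ℤ) ≤ W)]
  have wm1 := neg_le_abs (W * mu)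
  have wm2 := le_abs_self (W * mu)
  rw [hWmu] at wm1 wm2
  obtain ⟨hS, hhS⟩ : ∃ hS, hS = lam - 4 * W * (mp + mn) := ⟨_, rfl⟩
  have hhS' : hS = lam - 8 * |mu| := by
    have : 4 * W * (mp + mn) = 4 * (W * (mp + mn)) := by ring
    rw [hhS, this, hWm]; ring
  have hS0 : 0 < hS := by linarith
  have s1 := Int.emod_nonneg (-Y0 - W * mu) hS0.ne'
  have s2 := Int.emod_lt_of_pos (-Y0 - W * mu) hS0
  have s3 := Int.mul_ediv_add_emod (-Y0 - W * mu) hS
  generalize (-Y0 - W * mu) / hS = q₂ at s3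
  generalize (-Y0 - W * mu) % hS = ρ₂ at s1 s2 s3
  have w6 : 4 * (lam - 9 * |mu|) ≤ W * (lam - 9 * |mu|) :=
    mul_le_mul_of_nonneg_right (by linarith) (by linarith)
  have w7 : W * (lam - 9 * |mu|) = W * hS - W * |mu| := by rw [hhS']; ring
  have w8 : |Y0| + W * |mu| < W * hS := by linarith
  have r1 : hS * q₂ < hS * W := by linarith [mul_comm hS W]
  have r2 : q₂ < W := lt_of_mul_lt_mul_left r1 hS0.le
  have r3 : hS * (-W) < hS * (q₂ + 1) := by
    have e : hS * (q₂ + 1) = hS * q₂ + hS := by ring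
    have e' : hS * (-W) = -(W * hS) := by ring
    rw [e, e']; linarith
  have r4 : -W < q₂ + 1 := lt_of_mul_lt_mul_left r3 hS0.le
  obtain ⟨c, hc⟩ : ∃ c, c = 2 * |mu| + z * mu' + X0 := ⟨_, rfl⟩
  obtain ⟨y, hy⟩ : ∃ y, y = max 0 (-c) := ⟨_, rfl⟩
  have hy0 : 0 ≤ y := by rw [hy]; exact le_max_left _ _
  have hy1 : -c ≤ y := by rw [hy]; exact le_max_right _ _
  have hy2 : y + y + c ≤ |c| := by
    rcases le_total 0 (-c) with h | h
    · rw [hy, max_eq_right h, abs_of_nonpos (by linarith)]; linarith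
    · rw [hy, max_eq_left h]; linarith [le_abs_self c]
  have hcb : |c| ≤ |X0| + 3 * |mu| := by
    rw [abs_le]
    constructor
    · linarith
    · linarith
  have hmumm : p * (mp - mn) = mu := by rw [hmu, m3]
  have hmv := move_mu2 (lam := lam) (X' := X0) (W := W) (p := p) (z := z) (mp := mp) (mn := mn)
    (hS := hS) (q₂ := q₂) (ρ₂ := ρ₂) (y := y) m1 m2 (by linarith) (by linarith) hp0.le
    (by linarith) (by linarith) (by
      rw [hmumm, ← hY0]; linarith) s1 s2.le (by omega) (by omega) hy0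
    (by rw [hWm, ← m3]; linarith) (by
      have e : lam - 2 * W * (mp + mn) = lam - 2 * (W * (mp + mn)) := by ring
      rw [e, hWm, ← m3]
      linarith)
  rw [hmumm, ← hY0] at hmv
  obtain ⟨K, hK, hQ⟩ := MM_all (X := Y0) ⟨H1, H2⟩ h4 W.toNat W (2 * (mp + mn)) (by linarith)
    (Int.self_le_toNat _) (by
      have : W * (2 * (mp + mn)) = 2 * (W * (mp + mn)) := by ring
      rw [this, hWm]; linarith) (by
      have : (W - 1) * (2 * (mp + mn)) = 2 * (W * (mp + mn)) - 2 * (mp + mn) := by ring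
      rw [this, hWm]; linarith)
  exact ⟨_, _, good_of_nn hmv.2, hK, hmv.1.symm.trans hQ⟩

end Pool.Agent.Run7.h686.SS.T
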