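import Pool.Agent.Run7.h686.SS.Lin2

/-!
# The relation between residues modulo `λ - μ`
-/

set_option autoImplicit false

namespace Pool.Agent.Run7.h686.SS

open Matrix Pool.Agent.TH441.SSE2

/-- The presentations with parameters `X` and `Y` are connected. -/
def Rl (lam mu X Y : ℤ) : Prop :=
  ∃ K K', Good lam mu X K ∧ Good lam mu Y K' ∧ Q (C lam mu X K) (C lam mu Y K')

lemma Rl.symm {lam mu X Y : ℤ} (h : Rl lam mu X Y) : Rl lam mu Y X := by
  obtain ⟨K, K', h1, h2, h3⟩ := h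
  exact ⟨K', K, h2, h1, h3.symm⟩

lemma Rl.trans {lam mu X Y Z : ℤ} (h : Rl lam mu X Y) (h' : Rl lam mu Y Z) : Rl lam mu X Z := by
  obtain ⟨K, K', h1, h2, h3⟩ := h
  obtain ⟨L, L', h4, h5, h6⟩ := h'
  exact ⟨K, L', h1, h5, (h3.trans (C_par h2 h4)).trans h6⟩

lemma Rl.toQ {lam mu X Y : ℤ} (h : Rl lam mu X Y) {K K' : ℤ} (hX : Good lam mu X K)
    (hY : Good lam mu Y K') : Q (C lam mu X K) (C lam mu Y K') := by
  obtain ⟨L, L', h1, h2, h3⟩ := h
  exact ((C_par hX h1).trans h3).trans (C_par h2 hY)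

lemma Rl_of {lam mu X Y K K' : ℤ} (h : Q (C lam mu X K) (C lam mu Y K') ∧
    NN (C lam mu X K) ∧ NN (C lam mu Y K')) : Rl lam mu X Y :=
  ⟨K, K', good_of_nn h.2.1, good_of_nn h.2.2, h.1⟩

/-- The standing hypotheses. -/
def Hyp (lam mu : ℤ) : Prop := 1 ≤ |mu| ∧ 100 * (|mu| * |mu|) ≤ lam

lemma Hyp.lin {lam mu : ℤ} (H : Hyp lam mu) : 100 * |mu| ≤ lam := by
  obtain ⟨h1, h2⟩ := H
  nlinarith

lemma Hyp.pos {lam mu : ℤ} (H : Hyp lam mu) : 0 < lam - mu := by
  have h1 := H.lin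
  have h2 := H.1
  have e1 := le_abs_self mu
  linarith

lemma good_max {lam mu X : ℤ} (H : 8 * |mu| ≤ lam) (h : 2 * |X| ≤ lam + 2 * |mu|) :
    Good lam mu X (max |mu| (-X)) := by
  have a1 := le_abs_self X
  have a2 := neg_le_abs X
  have e0 := abs_nonneg mu
  rcases le_total |mu| (-X) with h1 | h1
  · rw [max_eq_right h1]
    exact ⟨h1, by linarith, by linarith⟩
  · rw [max_eq_left h1]
    exact ⟨le_refl _, by linarith, by linarith⟩

lemma bal_le {lam mu X : ℤ} (h : 2 * |X| ≤ lam - mu) : 2 * |X| ≤ lam + 2 * |mu| := by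
  have e1 := neg_le_abs mu
  have e0 := abs_nonneg mu
  linarith

lemma Rl_refl {lam mu X : ℤ} (H : Hyp lam mu) (h : 2 * |X| ≤ lam - mu) : Rl lam mu X X := by
  have h1 := H.lin
  have h0 := abs_nonneg mu
  have hg := good_max (lam := lam) (mu := mu) (X := X) (by linarith) (bal_le h)
  exact ⟨_, _, hg, hg, Q.refl _⟩

lemma Rl_sign {lam mu X : ℤ} (H : Hyp lam mu) (h : 2 * |X| ≤ lam - mu) :
    Rl lam mu (-X) X := by
  have h1 := H.lin
  have h0 := abs_nonneg mu
  have e1 := neg_le_abs mu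
  have a1 := le_abs_self X
  have a2 := neg_le_abs X
  have hg := good_max (lam := lam) (mu := mu) (X := -X) (by linarith) (by
    rw [abs_neg]; exact bal_le h)
  rw [neg_neg] at hg
  have hg' : Good lam mu X (max |mu| X - X + |mu|) := by
    rcases le_total |mu| X with h2 | h2
    · rw [max_eq_right h2]
      exact ⟨by linarith, by linarith, by linarith⟩
    · rw [max_eq_left h2]
      exact ⟨by linarith, by linarith, by linarith⟩
  exact ⟨_, _, hg, hg', C_sign hg hg'⟩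

/-- The relation between residues, through all balanced representatives. -/
def RR (lam mu X Y : ℤ) : Prop :=
  ∀ X0 Y0 : ℤ, (lam - mu) ∣ X0 - X → (lam - mu) ∣ Y0 - Y → 2 * |X0| ≤ lam - mu →
    2 * |Y0| ≤ lam - mu → Rl lam mu X0 Y0

lemma exists_bal {N : ℤ} (hN : 0 < N) (X : ℤ) : ∃ X0, N ∣ X0 - X ∧ 2 * |X0| ≤ N := by
  have h1 := Int.emod_nonneg X hN.ne'
  have h2 := Int.emod_lt_of_pos X hN
  have h3 := Int.mul_ediv_add_emod X N
  by_cases h : 2 * (X % N) ≤ N
  · refine ⟨X % N, ⟨-(X / N), by linarith⟩, ?_⟩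
    rw [abs_of_nonneg h1]; exact h
  · refine ⟨X % N - N, ⟨-(X / N) - 1, by linarith⟩, ?_⟩
    rw [abs_of_neg (by linarith)]
    push Not at h
    linarith

lemma RR.symm {lam mu X Y : ℤ} (h : RR lam mu X Y) : RR lam mu Y X :=
  fun X0 Y0 h1 h2 h3 h4 => (h Y0 X0 h2 h1 h4 h3).symm

lemma RR.trans {lam mu X Y Z : ℤ} (H : Hyp lam mu) (h : RR lam mu X Y) (h' : RR lam mu Y Z) :
    RR lam mu X Z := by
  intro X0 Z0 h1 h2 h3 h4
  obtain ⟨Y0, h5, h6⟩ := exists_bal H.pos Y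
  exact (h X0 Y0 h1 h5 h3 h6).trans (h' Y0 Z0 h5 h2 h6 h4)

lemma Rl_class {lam mu X0 Y0 : ℤ} (H : Hyp lam mu) (h : (lam - mu) ∣ X0 - Y0)
    (h3 : 2 * |X0| ≤ lam - mu) (h4 : 2 * |Y0| ≤ lam - mu) : Rl lam mu X0 Y0 := by
  have hN := H.pos
  obtain ⟨k, hk⟩ := h
  generalize hNe : lam - mu = N at *
  have b1 := abs_le.mp (show |X0| ≤ |X0| from le_rfl)
  have b2 := abs_le.mp (show |Y0| ≤ |Y0| from le_rfl)
  have c1 : N * k ≤ N * 1 := by linarith [b1.1, b1.2, b2.1, b2.2]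
  have c2 : N * (-1) ≤ N * k := by linarith [b1.1, b1.2, b2.1, b2.2]
  have d1 : k ≤ 1 := le_of_mul_le_mul_left c1 hN
  have d2 : -1 ≤ k := le_of_mul_le_mul_left c2 hN
  have d3 : k = 0 ∨ k = 1 ∨ k = -1 := by omega
  rcases d3 with h | h | h
  · rw [h] at hk
    have : X0 = Y0 := by linarith
    rw [← this]
    exact Rl_refl H (by rw [hNe]; exact h3)
  · rw [h] at hk
    have : X0 = -Y0 := by linarith [b1.1, b1.2, b2.1, b2.2]
    rw [this]
    exact Rl_sign H (by rw [hNe]; exact h4)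
  · rw [h] at hk
    have : X0 = -Y0 := by linarith [b1.1, b1.2, b2.1, b2.2]
    rw [this]
    exact Rl_sign H (by rw [hNe]; exact h4)

lemma RR_of_dvd {lam mu X Y : ℤ} (H : Hyp lam mu) (h : (lam - mu) ∣ X - Y) :
    RR lam mu X Y := by
  intro X0 Y0 h1 h2 h3 h4
  refine Rl_class H ?_ h3 h4
  have := dvd_sub (dvd_add h1 h) h2
  have e : X0 - X + (X - Y) - (Y0 - Y) = X0 - Y0 := by ring
  rwa [e] at this

lemma RR_refl {lam mu : ℤ} (H : Hyp lam mu) (X : ℤ) : RR lam mu X X :=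
  RR_of_dvd H (by simp)

lemma RR_neg {lam mu : ℤ} (H : Hyp lam mu) (X : ℤ) : RR lam mu X (-X) := by
  intro X0 Y0 h1 h2 h3 h4
  refine (Rl_class H ?_ h3 (Y0 := -Y0) (by rw [abs_neg]; exact h4)).trans (Rl_sign H h4)
  have := dvd_add h1 h2
  have e : X0 - X + (Y0 - -X) = X0 - -Y0 := by ring
  rwa [e] at this

lemma bal_z {N q X0 X' z : ℤ} (hN : 0 < N) (hq : 2 ≤ q) (h : X' = q * X0 + z * N)
    (h1 : 2 * |X0| ≤ N) (h2 : 2 * |X'| ≤ N) : |z| + 1 ≤ q := by
  have h3 : |z * N| ≤ |X'| + |q * X0| := by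
    have : z * N = X' - q * X0 := by rw [h]; ring
    rw [this]
    exact abs_sub _ _
  rw [abs_mul, abs_of_pos hN, abs_mul, abs_of_nonneg (by linarith : (0:ℤ) ≤ q)] at h3
  have h4 : q * (2 * |X0|) ≤ q * N := mul_le_mul_of_nonneg_left h1 (by linarith)
  have h5 : N * (2 * |z|) ≤ N * (q + 1) := by nlinarith
  have h6 : 2 * |z| ≤ q + 1 := le_of_mul_le_mul_left h5 hN
  omega

lemma pos_part (z : ℤ) : ∃ zp zn : ℤ, 0 ≤ zp ∧ 0 ≤ zn ∧ zp - zn = z ∧ zp + zn = |z| := by
  rcases le_total 0 z with h | h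
  · exact ⟨z, 0, h, le_rfl, by ring, by rw [abs_of_nonneg h]; ring⟩
  · exact ⟨0, -z, le_rfl, by linarith, by ring, by rw [abs_of_nonpos h]; ring⟩

/-- Multiplication by a divisor of the large eigenvalue. -/
lemma RR_lam {lam mu q l : ℤ} (H : Hyp lam mu) (hq : 2 ≤ q) (hl : lam = q * l)
    (hl8 : 8 * |mu| ≤ l) (X : ℤ) : RR lam mu X (q * X) := by
  intro X0 X' h1 h2 h3 h4
  have hN := H.pos
  have h5 : (lam - mu) ∣ X' - q * X0 := by
    have := dvd_sub h2 (dvd_mul_of_dvd_right h1 q)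
    have e : X' - q * X - q * (X0 - X) = X' - q * X0 := by ring
    rwa [e] at this
  obtain ⟨z, hz⟩ := h5
  have hX' : X' = q * X0 + z * (lam - mu) := by linarith
  have hzq := bal_z hN hq hX' h3 h4
  obtain ⟨zp, zn, z1, z2, z3, z4⟩ := pos_part z
  have hm0 := abs_nonneg mu
  have e1 := neg_le_abs mu
  have hY : q * (2 * |X0 + z * l|) ≤ q * (l + 2 * |mu|) := by
    have f1 : q * |X0 + z * l| = |X' + z * mu| := by
      have f2 : X' + z * mu = q * (X0 + z * l) := by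
        rw [hX', hl]; ring
      rw [f2, abs_mul, abs_of_nonneg (by linarith : (0:ℤ) ≤ q)]
    have f3 : |X' + z * mu| ≤ |X'| + |z| * |mu| := by
      rw [← abs_mul]; exact abs_add_le _ _
    have f4 : |z| * |mu| ≤ (q - 1) * |mu| := mul_le_mul_of_nonneg_right (by linarith) hm0
    nlinarith
  have hY' : 2 * |X0 + z * l| ≤ l + 2 * |mu| := le_of_mul_le_mul_left hY (by linarith)
  have hg := good_max (lam := l) (mu := mu) (X := X0 + (zp - zn) * l) hl8 (by
    rw [z3]; exact hY')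
  have hmv := move_lam (p := q) z1 z2 (by linarith) hg
  rw [z3, ← hl, ← hX'] at hmv
  exact Rl_of hmv

/-- Multiplication by a divisor of the small eigenvalue. -/
lemma RR_mu {lam mu p mu' : ℤ} (H : Hyp lam mu) (hp : 2 ≤ p) (hmu : mu = p * mu')
    (X : ℤ) : RR lam mu X (p * X) := by
  intro X0 Y0 h1 h2 h3 h4
  have hN := H.pos
  have h5 : (lam - mu) ∣ p * X0 - Y0 := by
    have := dvd_sub (dvd_mul_of_dvd_right h1 p) h2
    have e : p * (X0 - X) - (Y0 - p * X) = p * X0 - Y0 := by ring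
    rwa [e] at this
  obtain ⟨z, hz⟩ := h5
  have hY0 : Y0 = p * X0 + (-z) * (lam - mu) := by linarith
  have hzp := bal_z hN hp hY0 h3 h4
  rw [abs_neg] at hzp
  obtain ⟨zp, zn, z1, z2, z3, z4⟩ := pos_part z
  have hp0 : 0 < p := by linarith
  have hm0 := abs_nonneg mu
  have e1 := neg_le_abs mu
  have hmabs : |mu| = p * |mu'| := by rw [hmu, abs_mul, abs_of_pos hp0]
  have hmu'1 : 1 ≤ |mu'| := by
    have := H.1
    rw [hmabs] at this
    have h0 := abs_nonneg mu'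
    rcases h0.lt_or_eq with h | h
    · exact h
    · rw [← h] at this; norm_num at this
  have hpm : p ≤ |mu| := by rw [hmabs]; exact le_mul_of_one_le_right hp0.le hmu'1
  have n1 := Int.emod_nonneg lam hp0.ne'
  have n2 := Int.emod_lt_of_pos lam hp0
  have n3 := Int.mul_ediv_add_emod lam p
  generalize hn : lam % p = n at n1 n2 n3
  generalize hc : lam / p = c at n3
  have hH2 := H.2
  -- the parameter
  obtain ⟨Y1, hY1⟩ : ∃ Y1, Y1 = X0 - z * (c - mu') := ⟨_, rfl⟩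
  have hY1' : p * Y1 - n * z = Y0 := by rw [hY1, hY0, hmu, ← n3]; ring
  have hX0 : Y1 + z * (c - n + n - mu') = X0 := by rw [hY1]; ring
  have hYb : 2 * (p * |Y1|) ≤ lam + |mu| + 2 * ((p - 1) * (p - 1)) := by
    have f1 : p * |Y1| = |Y0 + n * z| := by
      have f2 : Y0 + n * z = p * Y1 := by rw [← hY1']; ring
      rw [f2, abs_mul, abs_of_pos hp0]
    have f3 : |Y0 + n * z| ≤ |Y0| + n * |z| := by
      refine (abs_add_le _ _).trans ?_
      rw [abs_mul, abs_of_nonneg n1]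
    have f4 : n * |z| ≤ (p - 1) * (p - 1) :=
      mul_le_mul (by linarith) (by linarith) (abs_nonneg _) (by linarith)
    linarith
  have hpp : p * p ≤ |mu| * |mu| := mul_le_mul hpm hpm hp0.le hm0
  have hpm2 : p * |mu| ≤ |mu| * |mu| := mul_le_mul_of_nonneg_right hpm hm0
  have hmm : |mu| ≤ |mu| * |mu| := le_mul_of_one_le_left hm0 H.1
  have hnp : n * (p + 1) ≤ (p - 1) * (p + 1) := mul_le_mul_of_nonneg_right (by linarith)
    (by linarith)
  have hfin : p * (12 * |mu| + 2 * |Y1|) ≤ p * (2 * (c - n)) := by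
    have g1 : p * (2 * (c - n)) = 2 * lam - 2 * (n * (p + 1)) := by rw [← n3]; ring
    rw [g1]
    nlinarith
  have hfin' : 12 * |mu| + 2 * |Y1| ≤ 2 * (c - n) := le_of_mul_le_mul_left hfin hp0
  have a1 := le_abs_self Y1
  have a2 := neg_le_abs Y1
  have hmv := move_mu (s := c - n) (mu := mu') (n := n) (Y := Y1)
    (K := 2 * (p * |mu'|) + max 0 (-Y1)) (p := p) z1 z2 (by linarith) n1
    (by linarith [le_max_left 0 (-Y1)]) (by
      have := le_max_right 0 (-Y1)
      rw [← hmabs]; linarith) (by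
      rw [← hmabs]
      rcases le_total 0 (-Y1) with h | h
      · rw [max_eq_right h]; linarith
      · rw [max_eq_left h]; linarith)
  have hlam : p * (c - n) + n * (p + 1) = lam := by rw [← n3]; ring
  rw [z3, hlam, ← hmu, hY1', hX0] at hmv
  exact (Rl_of hmv).symm

lemma RR_nat {lam mu : ℤ} (H : Hyp lam mu) (n : ℕ) : n ≠ 0 →
    (∀ p : ℕ, p.Prime → p ∣ n → ∀ X, RR lam mu X (p * X)) → ∀ X, RR lam mu X (n * X) := by
  induction n using Nat.recOnMul with
  | zero => intro h; exact absurd rfl h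
  | one => intro _ _ X; simpa using RR_refl H X
  | prime p hp => intro _ h X; exact h p hp dvd_rfl X
  | mul a b iha ihb =>
    intro h0 h X
    have ha0 : a ≠ 0 := by rintro rfl; simp at h0
    have hb0 : b ≠ 0 := by rintro rfl; simp at h0
    have h1 := ihb hb0 (fun p hp hd => h p hp (dvd_mul_of_dvd_right hd a)) X
    have h2 := iha ha0 (fun p hp hd => h p hp (dvd_mul_of_dvd_left hd b)) (b * X)
    have h3 := h1.trans H h2
    have e : (a : ℤ) * (b * X) = ((a * b : ℕ) : ℤ) * X := by push_cast; ring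
    rwa [e] at h3

lemma RR_int {lam mu : ℤ} (H : Hyp lam mu) (t : ℤ) (ht : t ≠ 0)
    (h : ∀ p : ℕ, p.Prime → (p : ℤ) ∣ t → ∀ X, RR lam mu X (p * X)) (X : ℤ) :
    RR lam mu X (t * X) := by
  have h1 := RR_nat H t.natAbs (by simpa using ht) (fun p hp hd =>
    h p hp (Int.natCast_dvd.mpr hd)) X
  rcases Int.natAbs_eq t with h2 | h2
  · rw [← h2] at h1; exact h1
  · have h3 := h1.trans H (RR_neg H _)
    have e : -((t.natAbs : ℤ) * X) = t * X := by
      conv_rhs => rw [h2]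
      ring
    rwa [e] at h3

lemma RR_prime_mu {lam mu : ℤ} (H : Hyp lam mu) (p : ℕ) (hp : p.Prime) (hd : (p : ℤ) ∣ mu)
    (X : ℤ) : RR lam mu X (p * X) := by
  obtain ⟨mu', hmu'⟩ := hd
  exact RR_mu H (by exact_mod_cast hp.two_le) hmu' X

lemma mu_ne {lam mu : ℤ} (H : Hyp lam mu) : mu ≠ 0 := by
  rintro rfl
  have := H.1
  norm_num at this

lemma RR_prime_lam {lam mu : ℤ} (H : Hyp lam mu) (p : ℕ) (hp : p.Prime) (hd : (p : ℤ) ∣ lam)
    (X : ℤ) : RR lam mu X (p * X) := by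
  obtain ⟨l, hl⟩ := hd
  have hp2 : (2 : ℤ) ≤ p := by exact_mod_cast hp.two_le
  have hm0 := abs_nonneg mu
  have hm1 := H.1
  have hlin := H.lin
  have hlam0 : 0 < lam := by linarith
  have hl0 : 0 < l := by
    by_contra hneg
    push Not at hneg
    nlinarith
  by_cases h8 : 8 * |mu| ≤ l
  · exact RR_lam H hp2 hl h8 X
  · push Not at h8
    have hp8 : 8 * |mu| ≤ (p : ℤ) := by
      by_contra hneg
      push Not at hneg
      have h2 := H.2
      nlinarith
    have h1 : RR lam mu (p * X) (l * (p * X)) := by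
      by_cases hl1 : l = 1
      · rw [hl1, one_mul]; exact RR_refl H _
      · exact RR_lam H (by omega) (by rw [hl]; ring) hp8 (p * X)
    have h2 : RR lam mu X (mu * X) :=
      RR_int H mu (mu_ne H) (fun p hp hd => RR_prime_mu H p hp hd) X
    have h3 : RR lam mu (mu * X) (l * (p * X)) := RR_of_dvd H ⟨-X, by rw [hl]; ring⟩
    exact ((h2.trans H h3)).trans H h1.symm

/-- Multiplication by integers supported on the primes of the eigenvalues. -/
lemma RR_pow_mu {lam mu : ℤ} (H : Hyp lam mu) (t s : ℤ) (l : ℕ) (ht : t * s = mu ^ l) (X : ℤ) :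
    RR lam mu X (t * X) := by
  have h0 : t ≠ 0 := by
    rintro rfl
    rw [zero_mul] at ht
    exact pow_ne_zero l (mu_ne H) ht.symm
  refine RR_int H t h0 (fun p hp hd => RR_prime_mu H p hp ?_) X
  have h1 : (p : ℤ) ∣ mu ^ l := by rw [← ht]; exact dvd_mul_of_dvd_left hd s
  exact (Nat.prime_iff_prime_int.mp hp).dvd_of_dvd_pow h1

lemma RR_pow_lam {lam mu : ℤ} (H : Hyp lam mu) (t s : ℤ) (l : ℕ) (ht : t * s = lam ^ l) (X : ℤ) :
    RR lam mu X (t * X) := by
  have hlin := H.lin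
  have hm1 := H.1
  have h0 : t ≠ 0 := by
    rintro rfl
    rw [zero_mul] at ht
    exact pow_ne_zero l (by linarith : lam ≠ 0) ht.symm
  refine RR_int H t h0 (fun p hp hd => RR_prime_lam H p hp ?_) X
  have h1 : (p : ℤ) ∣ lam ^ l := by rw [← ht]; exact dvd_mul_of_dvd_left hd s
  exact (Nat.prime_iff_prime_int.mp hp).dvd_of_dvd_pow h1

end Pool.Agent.Run7.h686.SS
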