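import Pool.Agent.Run7.h686.SS.MM

/-!
# The relation between residues, under the weaker hypothesis `400 |μ| ≤ λ`
-/

set_option autoImplicit false

namespace Pool.Agent.Run7.h686.SS.T

open Matrix Pool.Agent.TH441.SSE2 Pool.Agent.Run7.h686.SS

lemma lin {lam mu : ℤ} (H : Hyp2 lam mu) : 100 * |mu| ≤ lam := by
  obtain ⟨h1, h2⟩ := H
  linarith

lemma pos {lam mu : ℤ} (H : Hyp2 lam mu) : 0 < lam - mu := by
  have h1 := lin H
  have h2 := H.1
  have e1 := le_abs_self mu
  linarith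

lemma Rl_refl {lam mu X : ℤ} (H : Hyp2 lam mu) (h : 2 * |X| ≤ lam - mu) : Rl lam mu X X := by
  have h1 := lin H
  have h0 := abs_nonneg mu
  have hg := good_max (lam := lam) (mu := mu) (X := X) (by linarith) (bal_le h)
  exact ⟨_, _, hg, hg, Q.refl _⟩

lemma Rl_sign {lam mu X : ℤ} (H : Hyp2 lam mu) (h : 2 * |X| ≤ lam - mu) :
    Rl lam mu (-X) X := by
  have h1 := lin H
  have h0 := abs_nonneg mu
  have e1 := neg_le_abs mu
  have a1 := le_abs_self X
  have a2 := neg_le_abs X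
  have hg := good_max (lam := lam) (mu := mu) (X := -X) (by linarith) (by
    rw [abs_neg]; exact bal_le h)
  rw [neg_neg] at hg
  have hg' : Good lam mu X (max |mu| X - X + |mu|) := by
    rcases le_total |mu| X with h2 | h2
    · rw [max_eq_right h2]
      exact ⟨by linarith, by linarith, by linarith⟩
    · rw [max_eq_left h2]
      exact ⟨by linarith, by linarith, by linarith⟩
  exact ⟨_, _, hg, hg', C_sign hg hg'⟩

lemma RR_trans {lam mu X Y Z : ℤ} (H : Hyp2 lam mu) (h : RR lam mu X Y) (h' : RR lam mu Y Z) :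
    RR lam mu X Z := by
  intro X0 Z0 h1 h2 h3 h4
  obtain ⟨Y0, h5, h6⟩ := exists_bal (pos H) Y
  exact (h X0 Y0 h1 h5 h3 h6).trans (h' Y0 Z0 h5 h2 h6 h4)

lemma Rl_class {lam mu X0 Y0 : ℤ} (H : Hyp2 lam mu) (h : (lam - mu) ∣ X0 - Y0)
    (h3 : 2 * |X0| ≤ lam - mu) (h4 : 2 * |Y0| ≤ lam - mu) : Rl lam mu X0 Y0 := by
  have hN := pos H
  obtain ⟨k, hk⟩ := h
  generalize hNe : lam - mu = N at *
  have b1 := abs_le.mp (show |X0| ≤ |X0| from le_rfl)
  have b2 := abs_le.mp (show |Y0| ≤ |Y0| from le_rfl)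
  have c1 : N * k ≤ N * 1 := by linarith [b1.1, b1.2, b2.1, b2.2]
  have c2 : N * (-1) ≤ N * k := by linarith [b1.1, b1.2, b2.1, b2.2]
  have d1 : k ≤ 1 := le_of_mul_le_mul_left c1 hN
  have d2 : -1 ≤ k := le_of_mul_le_mul_left c2 hN
  have d3 : k = 0 ∨ k = 1 ∨ k = -1 := by omega
  rcases d3 with h | h | h
  · rw [h] at hk
    have : X0 = Y0 := by linarith
    rw [← this]
    exact Rl_refl H (by rw [hNe]; exact h3)
  · rw [h] at hk
    have : X0 = -Y0 := by linarith [b1.1, b1.2, b2.1, b2.2]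
    rw [this]
    exact Rl_sign H (by rw [hNe]; exact h4)
  · rw [h] at hk
    have : X0 = -Y0 := by linarith [b1.1, b1.2, b2.1, b2.2]
    rw [this]
    exact Rl_sign H (by rw [hNe]; exact h4)

lemma RR_of_dvd {lam mu X Y : ℤ} (H : Hyp2 lam mu) (h : (lam - mu) ∣ X - Y) :
    RR lam mu X Y := by
  intro X0 Y0 h1 h2 h3 h4
  refine Rl_class H ?_ h3 h4
  have := dvd_sub (dvd_add h1 h) h2
  have e : X0 - X + (X - Y) - (Y0 - Y) = X0 - Y0 := by ring
  rwa [e] at this

lemma RR_refl {lam mu : ℤ} (H : Hyp2 lam mu) (X : ℤ) : RR lam mu X X :=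
  RR_of_dvd H (by simp)

lemma RR_neg {lam mu : ℤ} (H : Hyp2 lam mu) (X : ℤ) : RR lam mu X (-X) := by
  intro X0 Y0 h1 h2 h3 h4
  refine (Rl_class H ?_ h3 (Y0 := -Y0) (by rw [abs_neg]; exact h4)).trans (Rl_sign H h4)
  have := dvd_add h1 h2
  have e : X0 - X + (Y0 - -X) = X0 - -Y0 := by ring
  rwa [e] at this

/-- Multiplication by a divisor of the large eigenvalue. -/
lemma RR_lam {lam mu q l : ℤ} (H : Hyp2 lam mu) (hq : 2 ≤ q) (hl : lam = q * l)
    (hl8 : 8 * |mu| ≤ l) (X : ℤ) : RR lam mu X (q * X) := by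
  intro X0 X' h1 h2 h3 h4
  have hN := pos H
  have h5 : (lam - mu) ∣ X' - q * X0 := by
    have := dvd_sub h2 (dvd_mul_of_dvd_right h1 q)
    have e : X' - q * X - q * (X0 - X) = X' - q * X0 := by ring
    rwa [e] at this
  obtain ⟨z, hz⟩ := h5
  have hX' : X' = q * X0 + z * (lam - mu) := by linarith
  have hzq := bal_z hN hq hX' h3 h4
  obtain ⟨zp, zn, z1, z2, z3, z4⟩ := pos_part z
  have hm0 := abs_nonneg mu
  have e1 := neg_le_abs mu
  have hY : q * (2 * |X0 + z * l|) ≤ q * (l + 2 * |mu|) := by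
    have f1 : q * |X0 + z * l| = |X' + z * mu| := by
      have f2 : X' + z * mu = q * (X0 + z * l) := by
        rw [hX', hl]; ring
      rw [f2, abs_mul, abs_of_nonneg (by linarith : (0:ℤ) ≤ q)]
    have f3 : |X' + z * mu| ≤ |X'| + |z| * |mu| := by
      rw [← abs_mul]; exact abs_add_le _ _
    have f4 : |z| * |mu| ≤ (q - 1) * |mu| := mul_le_mul_of_nonneg_right (by linarith) hm0
    nlinarith
  have hY' : 2 * |X0 + z * l| ≤ l + 2 * |mu| := le_of_mul_le_mul_left hY (by linarith)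
  have hg := good_max (lam := l) (mu := mu) (X := X0 + (zp - zn) * l) hl8 (by
    rw [z3]; exact hY')
  have hmv := move_lam (p := q) z1 z2 (by linarith) hg
  rw [z3, ← hl, ← hX'] at hmv
  exact Rl_of hmv

lemma RR_nat {lam mu : ℤ} (H : Hyp2 lam mu) (n : ℕ) : n ≠ 0 →
    (∀ p : ℕ, p.Prime → p ∣ n → ∀ X, RR lam mu X (p * X)) → ∀ X, RR lam mu X (n * X) := by
  induction n using Nat.recOnMul with
  | zero => intro h; exact absurd rfl h
  | one => intro _ _ X; simpa using RR_refl H X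
  | prime p hp => intro _ h X; exact h p hp dvd_rfl X
  | mul a b iha ihb =>
    intro h0 h X
    have ha0 : a ≠ 0 := by rintro rfl; simp at h0
    have hb0 : b ≠ 0 := by rintro rfl; simp at h0
    have h1 := ihb hb0 (fun p hp hd => h p hp (dvd_mul_of_dvd_right hd a)) X
    have h2 := iha ha0 (fun p hp hd => h p hp (dvd_mul_of_dvd_left hd b)) (b * X)
    have h3 := RR_trans H h1 h2
    have e : (a : ℤ) * (b * X) = ((a * b : ℕ) : ℤ) * X := by push_cast; ring
    rwa [e] at h3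

lemma RR_int {lam mu : ℤ} (H : Hyp2 lam mu) (t : ℤ) (ht : t ≠ 0)
    (h : ∀ p : ℕ, p.Prime → (p : ℤ) ∣ t → ∀ X, RR lam mu X (p * X)) (X : ℤ) :
    RR lam mu X (t * X) := by
  have h1 := RR_nat H t.natAbs (by simpa using ht) (fun p hp hd =>
    h p hp (Int.natCast_dvd.mpr hd)) X
  rcases Int.natAbs_eq t with h2 | h2
  · rw [← h2] at h1; exact h1
  · have h3 := RR_trans H h1 (RR_neg H _)
    have e : -((t.natAbs : ℤ) * X) = t * X := by
      conv_rhs => rw [h2]
      ring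
    rwa [e] at h3


end Pool.Agent.Run7.h686.SS.T
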