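import Pool.Agent.Run7.h686.SS.Main2

/-!
# Determinant zero, and the case distinction on the discriminant
-/

set_option autoImplicit false

namespace Pool.Agent.Run7.h686.SS.T

open Matrix Pool.Agent.TH441.SSE2 Pool.Agent.Run7.h686.SS Pool.Agent.Y321.SE2

lemma sq_det0 (M : Matrix (Fin 2) (Fin 2) ℤ) (h : M.det = 0) : M * M = M.trace • M := by
  rw [Matrix.det_fin_two] at h
  ext i j
  fin_cases i <;> fin_cases j <;>
    simp [Matrix.mul_apply, Fin.sum_univ_two, Matrix.trace_fin_two]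
  · linear_combination -h
  · ring
  · ring
  · linear_combination -h

lemma pow_det0 (M : Matrix (Fin 2) (Fin 2) ℤ) (h : M.det = 0) (n : ℕ) :
    M ^ (n + 1) = M.trace ^ n • M := by
  induction n with
  | zero => simp
  | succ n ih =>
    rw [pow_succ, ih, Matrix.smul_mul, sq_det0 M h, smul_smul, pow_succ]

lemma Q_det0 {A : Matrix (Fin 2) (Fin 2) ℤ} (hA : Pos A) (hD : A.det = 0) :
    Q A (!![A.trace] : Matrix (Fin 1) (Fin 1) ℤ) := by
  obtain ⟨hnn, hb, hc⟩ := hA
  have ha := hnn 0 0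
  have hd := hnn 1 1
  rw [Matrix.det_fin_two] at hD
  rw [Matrix.trace_fin_two]
  have hAeta := Matrix.eta_fin_two A
  rw [hAeta]
  generalize A 0 0 = a at *
  generalize A 0 1 = b at *
  generalize A 1 0 = c at *
  generalize A 1 1 = d at *
  have hbc : 0 < b * c := mul_pos (by linarith) (by linarith)
  have ha0 : 0 < a := by
    rcases ha.lt_or_eq with h | h
    · exact h
    · rw [← h] at hD; linarith
  have hg : 0 < Int.gcd a b := Int.gcd_pos_of_ne_zero_left _ ha0.ne'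
  obtain ⟨x, y, hcop, h1, h2⟩ := Int.exists_gcd_one hg
  have hg0 : (0 : ℤ) < ((Int.gcd a b : ℕ) : ℤ) := by exact_mod_cast hg
  generalize ((Int.gcd a b : ℕ) : ℤ) = g at h1 h2 hg0
  have hx0 : 0 < x := by
    by_contra hneg
    push Not at hneg
    have := mul_nonpos_of_nonpos_of_nonneg hneg hg0.le
    linarith
  have hy0 : 0 < y := by
    by_contra hneg
    push Not at hneg
    have := mul_nonpos_of_nonpos_of_nonneg hneg hg0.le
    linarith
  have hxy : x * d = y * c := by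
    apply mul_left_cancel₀ hg0.ne'
    rw [h1, h2] at hD
    linear_combination hD
  have hcop' : IsCoprime x y := Int.isCoprime_iff_gcd_eq_one.mpr hcop
  have hxc : x ∣ c := hcop'.dvd_of_dvd_mul_left ⟨d, by rw [hxy]⟩
  obtain ⟨h, hh⟩ := hxc
  have hdh : d = y * h := by
    apply mul_left_cancel₀ hx0.ne'
    rw [hxy, hh]; ring
  have hh0 : 0 ≤ h := by
    by_contra hneg
    push Not at hneg
    have := mul_neg_of_pos_of_neg hx0 hneg
    linarith
  refine Q.of_elem (!![g; h] : Matrix (Fin 2) (Fin 1) ℤ) (!![x, y] : Matrix (Fin 1) (Fin 2) ℤ)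
    ?_ ?_ ?_ ?_
  · intro i j; fin_cases i <;> fin_cases j <;> simp <;> linarith
  · intro i j; fin_cases i <;> fin_cases j <;> simp <;> linarith
  · ext i j; fin_cases i <;> fin_cases j <;> simp [Matrix.mul_apply] <;>
      first
      | rw [h1]; ring1
      | rw [h2]; ring1
      | rw [hh]; ring1
      | rw [hdh]; ring1
  · ext i j; fin_cases i; fin_cases j; simp [Matrix.mul_apply, Fin.sum_univ_two]
    rw [h1, hdh]

lemma Q_zero {A B R S : Matrix (Fin 2) (Fin 2) ℤ} (hA : Pos A) (hB : Pos B) (hD : A.det = 0)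
    (l : ℕ) (hl : 1 ≤ l) (e1 : A ^ l = R * S) (e2 : B ^ l = S * R) : Q A B := by
  obtain ⟨n, rfl⟩ : ∃ n, l = n + 1 := ⟨l - 1, by omega⟩
  have hDB : B.det = 0 := by
    have h1 : (B ^ (n + 1)).det = (A ^ (n + 1)).det := by
      rw [e1, e2, Matrix.det_mul, Matrix.det_mul, mul_comm]
    rw [Matrix.det_pow, Matrix.det_pow, hD, zero_pow (by omega)] at h1
    exact pow_eq_zero_iff (by omega) |>.mp h1
  have htr : B.trace ^ (n + 1) = A.trace ^ (n + 1) := by
    have h1 : (B ^ (n + 1)).trace = (A ^ (n + 1)).trace := by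
      rw [e1, e2, Matrix.trace_mul_comm]
    rw [pow_det0 B hDB, pow_det0 A hD, Matrix.trace_smul, Matrix.trace_smul, smul_eq_mul,
      smul_eq_mul, ← pow_succ, ← pow_succ] at h1
    exact h1
  have hA0 : 0 ≤ A.trace := by
    rw [Matrix.trace_fin_two]; exact add_nonneg (hA.1 0 0) (hA.1 1 1)
  have hB0 : 0 ≤ B.trace := by
    rw [Matrix.trace_fin_two]; exact add_nonneg (hB.1 0 0) (hB.1 1 1)
  have ht : B.trace = A.trace := (pow_left_inj₀ hB0 hA0 (by omega)).mp htr
  have q1 := Q_det0 hA hD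
  have q2 := Q_det0 hB hDB
  rw [ht] at q2
  exact q1.trans q2.symm

lemma exists_eigen {T D s : ℤ} (hT : 0 ≤ T) (hs : T ^ 2 - 4 * D = s * s) :
    ∃ lam mu : ℤ, T = lam + mu ∧ D = lam * mu ∧ |mu| ≤ lam := by
  have hs' : T ^ 2 - 4 * D = |s| * |s| := by rw [abs_mul_abs_self]; exact hs
  have h0 := abs_nonneg s
  generalize |s| = u at hs' h0
  have hpar : ∃ lam, T + u = 2 * lam := by
    rcases Int.even_or_odd (T + u) with ⟨k, hk⟩ | ⟨k, hk⟩
    · exact ⟨k, by linarith⟩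
    · exfalso
      have hu : u = 2 * k + 1 - T := by linarith
      rw [hu] at hs'
      have h1 : 4 * (k * k) + 4 * k + 1 - 4 * (k * T) - 2 * T + 4 * D = 0 := by
        linear_combination -hs'
      generalize k * k = w at h1
      generalize k * T = v at h1
      omega
  obtain ⟨lam, hlam⟩ := hpar
  refine ⟨lam, T - lam, by ring, ?_, ?_⟩
  · have hu : u = 2 * lam - T := by linarith
    rw [hu] at hs'
    have : 4 * D = 4 * (lam * (T - lam)) := by linear_combination -hs'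
    linarith
  · rw [abs_le]
    constructor <;> linarith

/-- Shift equivalence over `ℤ` implies a chain, in all cases. -/
theorem Q_all (A B : Matrix (Fin 2) (Fin 2) ℕ) (hA : 1 ≤ A 0 1 ∧ 1 ≤ A 1 0)
    (hB : 1 ≤ B 0 1 ∧ 1 ≤ B 1 0)
    (hquad : 500 * |(A.map (Nat.cast : ℕ → ℤ)).det| ≤ (A.map (Nat.cast : ℕ → ℤ)).trace ^ 2)
    (h : ∃ l, 1 ≤ l ∧ ∃ (R : Matrix (Fin 2) (Fin 2) ℤ) (S : Matrix (Fin 2) (Fin 2) ℤ),
      (A.map (Nat.cast : ℕ → ℤ)) ^ l = R * S ∧ (B.map (Nat.cast : ℕ → ℤ)) ^ l = S * R ∧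
      A.map (Nat.cast : ℕ → ℤ) * R = R * B.map (Nat.cast : ℕ → ℤ) ∧
      S * A.map (Nat.cast : ℕ → ℤ) = B.map (Nat.cast : ℕ → ℤ) * S) :
    Q (A.map (Nat.cast : ℕ → ℤ)) (B.map (Nat.cast : ℕ → ℤ)) := by
  have hPA : Pos (A.map (Nat.cast : ℕ → ℤ)) :=
    ⟨fun i j => by simp, by simpa using hA.1, by simpa using hA.2⟩
  have hPB : Pos (B.map (Nat.cast : ℕ → ℤ)) :=
    ⟨fun i j => by simp, by simpa using hB.1, by simpa using hB.2⟩
  by_cases hns : IsSquare ((A.map (Nat.cast : ℕ → ℤ)).trace ^ 2 -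
      4 * (A.map (Nat.cast : ℕ → ℤ)).det)
  · obtain ⟨l, hl, R, S, e1, e2, e3, e4⟩ := h
    obtain ⟨s, hs⟩ := hns
    have hT0 : 0 ≤ (A.map (Nat.cast : ℕ → ℤ)).trace := by
      rw [Matrix.trace_fin_two]; exact add_nonneg (hPA.1 0 0) (hPA.1 1 1)
    by_cases hD : (A.map (Nat.cast : ℕ → ℤ)).det = 0
    · exact Q_zero hPA hPB hD l hl e1 e2
    · obtain ⟨lam, mu, hT, hDD, hle⟩ := exists_eigen hT0 hs
      have hmu : mu ≠ 0 := by
        rintro rfl
        rw [mul_zero] at hDD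
        exact hD hDD
      have h500 : 500 * |lam * mu| ≤ (lam + mu) ^ 2 := by
        rw [← hT, ← hDD]; exact hquad
      exact Q_main (hyp_of hmu hle h500) hPA hPB hT hDD h500 l e1 e3 e4
  · exact Q_of_seZ_all A B hquad hns h

end Pool.Agent.Run7.h686.SS.T
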